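import Pool.Agent.STK.Mat

set_option autoImplicit false

/-!
# Hermitian-symplectic Lie algebras: exact forms of type (1,1) vanish
-/

open Module

namespace Pool.Agent.STK

variable {L : Type*} [LieRing L] [LieAlgebra ℝ L]

/-- A complex structure `J` on a real Lie algebra together with a closed 2-form taming it. -/
structure Tame (J : L →ₗ[ℝ] L) (Ω : L →ₗ[ℝ] L →ₗ[ℝ] ℝ) : Prop where
  jj : ∀ x, J (J x) = -x
  int : ∀ x y, ⁅J x, J y⁆ = ⁅x, y⁆ + J ⁅J x, y⁆ + J ⁅x, J y⁆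
  alt : ∀ x, Ω x x = 0
  closed : ∀ x y z, Ω ⁅x, y⁆ z + Ω ⁅y, z⁆ x + Ω ⁅z, x⁆ y = 0
  tame : ∀ x, x ≠ 0 → 0 < Ω x (J x)

lemma skew_of_alt {V : Type*} [AddCommGroup V] [Module ℝ V] {w : V →ₗ[ℝ] V →ₗ[ℝ] ℝ}
    (h : ∀ x, w x x = 0) (x y : V) : w x y = -w y x := by
  have h1 := h (x + y)
  simp only [map_add, LinearMap.add_apply, h x, h y, zero_add, add_zero] at h1
  linarith

lemma trace_exact [FiniteDimensional ℝ L] (w : L →ₗ[ℝ] L →ₗ[ℝ] ℝ) (halt : ∀ x, w x x = 0)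
    (hcl : ∀ x y z, w ⁅x, y⁆ z + w ⁅y, z⁆ x + w ⁅z, x⁆ y = 0)
    (hinj : Function.Injective w) (γ : L →ₗ[ℝ] ℝ) (E : End ℝ L)
    (hE : ∀ x y, w (E x) y = -γ ⁅x, y⁆)
    (huni : ∀ x : L, LinearMap.trace ℝ L (LieAlgebra.ad ℝ L x) = 0) :
    LinearMap.trace ℝ L E = 0 := by
  let e : L ≃ₗ[ℝ] (Dual ℝ L) :=
    LinearMap.linearEquivOfInjective w hinj (Subspace.dual_finrank_eq).symm
  have he : ∀ x, e x = w x := fun x => rfl
  obtain ⟨ξ, hξ⟩ := e.surjective γ
  rw [he] at hξ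
  let D : End ℝ L := LieAlgebra.ad ℝ L ξ
  let Dt : End ℝ L := e.symm.conj (Module.Dual.transpose D)
  have hDt : ∀ x y, w (Dt x) y = w x ⁅ξ, y⁆ := by
    intro x y
    rw [← he, ← he]
    show (e (e.symm (Module.Dual.transpose D (e x)))) y = _
    rw [LinearEquiv.apply_symm_apply]
    rfl
  have hED : E = -(D + Dt) := by
    ext1 x
    apply hinj
    ext1 y
    rw [hE, LinearMap.neg_apply, LinearMap.add_apply, map_neg, LinearMap.neg_apply, map_add,
      LinearMap.add_apply, hDt]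
    have h1 := hcl ξ x y
    have h2 : w ⁅x, y⁆ ξ = -w ξ ⁅x, y⁆ := skew_of_alt halt _ _
    have h3 : w ⁅y, ξ⁆ x = w x ⁅ξ, y⁆ := by
      rw [skew_of_alt halt, ← lie_skew ξ y, map_neg]
    have h4 : D x = ⁅ξ, x⁆ := rfl
    rw [h4, ← hξ]
    linarith
  have htr : LinearMap.trace ℝ L Dt = 0 := by
    show LinearMap.trace ℝ L (e.symm.conj (Module.Dual.transpose D)) = 0
    rw [LinearMap.trace_conj', LinearMap.trace_transpose']
    exact huni ξ
  rw [hED, map_neg, map_add, htr, huni ξ, add_zero, neg_zero]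

namespace Tame

variable {J : L →ₗ[ℝ] L} {Ω : L →ₗ[ℝ] L →ₗ[ℝ] ℝ}

lemma inj (h : Tame J Ω) : Function.Injective Ω := by
  rw [injective_iff_map_eq_zero]
  intro x hx
  by_contra hne
  have := h.tame x hne
  rw [hx, LinearMap.zero_apply] at this
  exact lt_irrefl _ this

/-- An exact form of type (1,1) on a unimodular Hermitian-symplectic Lie algebra is zero. -/
theorem exact_zero [FiniteDimensional ℝ L] (h : Tame J Ω)
    (huni : ∀ x : L, LinearMap.trace ℝ L (LieAlgebra.ad ℝ L x) = 0) (γ : L →ₗ[ℝ] ℝ)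
    (hγ : ∀ x y : L, γ ⁅J x, J y⁆ = γ ⁅x, y⁆) : ∀ x y : L, γ ⁅x, y⁆ = 0 := by
  let e : L ≃ₗ[ℝ] (Dual ℝ L) :=
    LinearMap.linearEquivOfInjective Ω h.inj (Subspace.dual_finrank_eq).symm
  have he : ∀ x, e x = Ω x := fun x => rfl
  let B : L →ₗ[ℝ] L →ₗ[ℝ] ℝ :=
    LinearMap.mk₂ ℝ (fun x y => -γ ⁅x, y⁆)
      (by intro a b c; rw [add_lie, map_add]; ring)
      (by intro a b c; rw [smul_lie, map_smul, smul_eq_mul, smul_eq_mul]; ring)
      (by intro a b c; rw [lie_add, map_add]; ring)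
      (by intro a b c; rw [lie_smul, map_smul, smul_eq_mul, smul_eq_mul]; ring)
  have hB : ∀ x y, B x y = -γ ⁅x, y⁆ := fun x y => rfl
  let N : End ℝ L := e.symm.toLinearMap ∘ₗ B
  have hN : ∀ x, Ω (N x) = B x := by
    intro x
    rw [← he]
    exact e.apply_symm_apply (B x)
  have hnil : IsNilpotent N := by
    apply isNilpotent_of_trace
    intro t A hA
    have hA' : (1 - t • N) * A = 1 := mul_eq_one_comm.mp hA
    have hw : ∀ x, (Ω - t • B) x = Ω ((1 - t • N) x) := by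
      intro x
      rw [LinearMap.sub_apply, LinearMap.sub_apply, map_sub, LinearMap.smul_apply,
        LinearMap.smul_apply, map_smul, hN, Module.End.one_apply]
    apply trace_exact (Ω - t • B) ?_ ?_ ?_ γ (A * N) ?_ huni
    · intro x
      rw [LinearMap.sub_apply, LinearMap.sub_apply, h.alt, LinearMap.smul_apply,
        LinearMap.smul_apply, hB, lie_self, map_zero, neg_zero, smul_zero, sub_zero]
    · intro x y z
      simp only [LinearMap.sub_apply, LinearMap.smul_apply, hB, smul_eq_mul]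
      have h1 := h.closed x y z
      have h2 : ⁅⁅x, y⁆, z⁆ + ⁅⁅y, z⁆, x⁆ + ⁅⁅z, x⁆, y⁆ = 0 := by
        have := lie_jacobi x y z
        rw [← lie_skew x ⁅y, z⁆, ← lie_skew y ⁅z, x⁆, ← lie_skew z ⁅x, y⁆] at this
        have h3 : ⁅⁅x, y⁆, z⁆ + ⁅⁅y, z⁆, x⁆ + ⁅⁅z, x⁆, y⁆ =
            -(-⁅⁅y, z⁆, x⁆ + -⁅⁅z, x⁆, y⁆ + -⁅⁅x, y⁆, z⁆) := by abel
        rw [h3, this, neg_zero]
      have h4 := congrArg γ h2
      rw [map_add, map_add, map_zero] at h4
      have h5 : t * (γ ⁅⁅x, y⁆, z⁆ + γ ⁅⁅y, z⁆, x⁆ + γ ⁅⁅z, x⁆, y⁆) = 0 := by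
        rw [h4, mul_zero]
      linarith
    · intro x y hxy
      rw [hw, hw] at hxy
      have h1 := h.inj hxy
      have h2 := congrArg A h1
      have h3 : ∀ z, A ((1 - t • N) z) = z := fun z => LinearMap.congr_fun hA z
      rw [h3, h3] at h2
      exact h2
    · intro x y
      rw [hw]
      have h3 : (1 - t • N) ((A * N) x) = N x := LinearMap.congr_fun hA' (N x)
      rw [h3, hN, hB]
  have hN0 : N = 0 := by
    by_contra hne
    obtain ⟨k, hk⟩ := hnil
    classical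
    let m := Nat.find (⟨k, hk⟩ : ∃ k, N ^ k = 0)
    have hm : N ^ m = 0 := Nat.find_spec (⟨k, hk⟩ : ∃ k, N ^ k = 0)
    have hm0 : m ≠ 0 := by
      intro h0
      rw [h0, pow_zero] at hm
      apply hne
      rw [← mul_one N, hm, mul_zero]
    have hm1 : m ≠ 1 := by
      intro h1
      rw [h1, pow_one] at hm
      exact hne hm
    obtain ⟨j, hj⟩ : ∃ j, m = j + 2 := ⟨m - 2, by omega⟩
    have hlt : N ^ (j + 1) ≠ 0 := by
      intro h0
      have : m ≤ j + 1 := Nat.find_min' (⟨k, hk⟩ : ∃ k, N ^ k = 0) h0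
      omega
    obtain ⟨z0, hz0⟩ : ∃ z, (N ^ (j + 1)) z ≠ 0 := by
      by_contra hall
      push Not at hall
      apply hlt
      ext1 z
      rw [hall z, LinearMap.zero_apply]
    set z := (N ^ j) z0 with hz
    have hyz : (N ^ (j + 1)) z0 = N z := by
      rw [pow_succ', Module.End.mul_apply]
    have hNy : N (N z) = 0 := by
      have : N (N z) = (N ^ (j + 2)) z0 := by
        rw [pow_succ', Module.End.mul_apply, hyz]
      rw [this, ← hj, hm, LinearMap.zero_apply]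
    rw [hyz] at hz0
    have hker : ∀ v, γ ⁅N z, v⁆ = 0 := by
      intro v
      have h1 := hN (N z)
      rw [hNy, map_zero] at h1
      have h2 := LinearMap.congr_fun h1 v
      rw [LinearMap.zero_apply, hB] at h2
      linarith
    have h1 := h.tame (N z) hz0
    rw [hN, hB] at h1
    have h2 : γ ⁅z, J (N z)⁆ = 0 := by
      rw [← hγ, h.jj, lie_neg, map_neg, ← lie_skew, map_neg, neg_neg]
      exact hker _
    rw [h2, neg_zero] at h1
    exact lt_irrefl _ h1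
  intro x y
  have h1 := hN x
  rw [hN0, LinearMap.zero_apply, map_zero] at h1
  have h2 := LinearMap.congr_fun h1 y
  rw [LinearMap.zero_apply, hB] at h2
  linarith

/-- `J` preserves the span of the brackets. -/
theorem derived_J [FiniteDimensional ℝ L] (h : Tame J Ω)
    (huni : ∀ x : L, LinearMap.trace ℝ L (LieAlgebra.ad ℝ L x) = 0) (x y : L) :
    J ⁅x, y⁆ ∈ Submodule.span ℝ {z : L | ∃ a b : L, ⁅a, b⁆ = z} := by
  set W := Submodule.span ℝ {z : L | ∃ a b : L, ⁅a, b⁆ = z} with hW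
  by_contra hn
  obtain ⟨f, hf1, hf2⟩ := Submodule.exists_le_ker_of_notMem hn
  have hf3 : ∀ a b : L, f ⁅a, b⁆ = 0 := fun a b =>
    hf2 (Submodule.subset_span ⟨a, b, rfl⟩)
  have h1 := h.exact_zero huni (f ∘ₗ J) (by
    intro a b
    simp only [LinearMap.comp_apply, h.int, map_add, h.jj, map_neg, hf3]
    ring) x y
  exact hf1 h1

end Tame

end Pool.Agent.STK
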