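import Pool.Agent.STK.Solv
import Pool.Agent.STK.Basic

set_option autoImplicit false

/-!
# Unimodular symplectic Lie algebras are solvable (Chu 1974)
-/

open Module

namespace Pool.Agent.STK

variable {L : Type*} [LieRing L] [LieAlgebra ℝ L] [FiniteDimensional ℝ L]

/-- On a unimodular symplectic Lie algebra the operator of an exact form is nilpotent. -/
theorem exact_nil (Ω : L →ₗ[ℝ] L →ₗ[ℝ] ℝ) (halt : ∀ x, Ω x x = 0)
    (hcl : ∀ x y z, Ω ⁅x, y⁆ z + Ω ⁅y, z⁆ x + Ω ⁅z, x⁆ y = 0)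
    (hinj : Function.Injective Ω)
    (huni : ∀ x : L, LinearMap.trace ℝ L (LieAlgebra.ad ℝ L x) = 0) (γ : L →ₗ[ℝ] ℝ)
    (N : End ℝ L) (hN : ∀ x y, Ω (N x) y = -γ ⁅x, y⁆) : IsNilpotent N := by
  let B : L →ₗ[ℝ] L →ₗ[ℝ] ℝ :=
    LinearMap.mk₂ ℝ (fun x y => -γ ⁅x, y⁆)
      (by intro a b c; rw [add_lie, map_add]; ring)
      (by intro a b c; rw [smul_lie, map_smul, smul_eq_mul, smul_eq_mul]; ring)
      (by intro a b c; rw [lie_add, map_add]; ring)
      (by intro a b c; rw [lie_smul, map_smul, smul_eq_mul, smul_eq_mul]; ring)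
  have hB : ∀ x y, B x y = -γ ⁅x, y⁆ := fun x y => rfl
  have hNB : ∀ x, Ω (N x) = B x := by
    intro x
    ext1 y
    rw [hN, hB]
  apply isNilpotent_of_trace
  intro t A hA
  have hA' : (1 - t • N) * A = 1 := mul_eq_one_comm.mp hA
  have hw : ∀ x, (Ω - t • B) x = Ω ((1 - t • N) x) := by
    intro x
    rw [LinearMap.sub_apply, LinearMap.sub_apply, map_sub, LinearMap.smul_apply,
      LinearMap.smul_apply, map_smul, hNB, Module.End.one_apply]
  apply trace_exact (Ω - t • B) ?_ ?_ ?_ γ (A * N) ?_ huni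
  · intro x
    rw [LinearMap.sub_apply, LinearMap.sub_apply, halt, LinearMap.smul_apply,
      LinearMap.smul_apply, hB, lie_self, map_zero, neg_zero, smul_zero, sub_zero]
  · intro x y z
    simp only [LinearMap.sub_apply, LinearMap.smul_apply, hB, smul_eq_mul]
    have h1 := hcl x y z
    have h2 : ⁅⁅x, y⁆, z⁆ + ⁅⁅y, z⁆, x⁆ + ⁅⁅z, x⁆, y⁆ = 0 := by
      have := lie_jacobi x y z
      rw [← lie_skew x ⁅y, z⁆, ← lie_skew y ⁅z, x⁆, ← lie_skew z ⁅x, y⁆] at this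
      have h3 : ⁅⁅x, y⁆, z⁆ + ⁅⁅y, z⁆, x⁆ + ⁅⁅z, x⁆, y⁆ =
          -(-⁅⁅y, z⁆, x⁆ + -⁅⁅z, x⁆, y⁆ + -⁅⁅x, y⁆, z⁆) := by abel
      rw [h3, this, neg_zero]
    have h4 := congrArg γ h2
    rw [map_add, map_add, map_zero] at h4
    have h5 : t * (γ ⁅⁅x, y⁆, z⁆ + γ ⁅⁅y, z⁆, x⁆ + γ ⁅⁅z, x⁆, y⁆) = 0 := by
      rw [h4, mul_zero]
    linarith
  · intro x y hxy
    rw [hw, hw] at hxy
    have h1 := hinj hxy
    have h2 := congrArg A h1
    have h3 : ∀ z, A ((1 - t • N) z) = z := fun z => LinearMap.congr_fun hA z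
    rw [h3, h3] at h2
    exact h2
  · intro x y
    rw [hw]
    have h3 : (1 - t • N) ((A * N) x) = N x := LinearMap.congr_fun hA' (N x)
    rw [h3, hNB, hB]

/-- Chu's theorem: a unimodular real Lie algebra with a symplectic form is solvable. -/
theorem solvable_of_symplectic (Ω : L →ₗ[ℝ] L →ₗ[ℝ] ℝ) (halt : ∀ x, Ω x x = 0)
    (hcl : ∀ x y z, Ω ⁅x, y⁆ z + Ω ⁅y, z⁆ x + Ω ⁅z, x⁆ y = 0)
    (hinj : Function.Injective Ω)
    (huni : ∀ x : L, LinearMap.trace ℝ L (LieAlgebra.ad ℝ L x) = 0) :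
    LieAlgebra.IsSolvable L := by
  let e : L ≃ₗ[ℝ] (Dual ℝ L) :=
    LinearMap.linearEquivOfInjective Ω hinj (Subspace.dual_finrank_eq).symm
  have he : ∀ x, e x = Ω x := fun x => rfl
  apply solvable_affine (V := Dual ℝ L) Ω
  · intro x y
    ext1 z
    rw [LinearMap.sub_apply, Module.Dual.lie_apply, Module.Dual.lie_apply]
    have h1 := hcl x y z
    have h2 : Ω ⁅y, z⁆ x = -Ω x ⁅y, z⁆ := skew_of_alt halt _ _
    have h3 : Ω ⁅z, x⁆ y = Ω y ⁅x, z⁆ := by
      rw [skew_of_alt halt, ← lie_skew x z, map_neg]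
    linarith
  · intro γ
    let N : End ℝ L := e.symm.toLinearMap ∘ₗ
      (LinearMap.mk₂ ℝ (fun x y => -γ ⁅x, y⁆)
      (by intro a b c; rw [add_lie, map_add]; ring)
      (by intro a b c; rw [smul_lie, map_smul, smul_eq_mul, smul_eq_mul]; ring)
      (by intro a b c; rw [lie_add, map_add]; ring)
      (by intro a b c; rw [lie_smul, map_smul, smul_eq_mul, smul_eq_mul]; ring))
    have hN : ∀ x y, Ω (N x) y = -γ ⁅x, y⁆ := by
      intro x y
      rw [← he]
      show (e (e.symm _)) y = _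
      rw [LinearEquiv.apply_symm_apply]
      rfl
    have hnil := exact_nil Ω halt hcl hinj huni γ N hN
    have hbij : Function.Bijective (1 + N : End ℝ L) :=
      (Module.End.isUnit_iff _).mp hnil.isUnit_one_add
    have hfun : (fun x : L => Ω x + ⁅x, γ⁆) = e ∘ (1 + N : End ℝ L) := by
      funext x
      show Ω x + ⁅x, γ⁆ = e (x + N x)
      rw [map_add, he, he]
      congr 1
      ext1 y
      rw [hN, Module.Dual.lie_apply]
    rw [hfun]
    exact e.bijective.comp hbij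

end Pool.Agent.STK
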