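import Pool.Agent.STK.Deriv

set_option autoImplicit false

/-!
# Two-step case: the Kähler form

If the derived algebra is abelian then there is an invariant Kähler form.
-/

open Module

namespace Pool.Agent.STK

/-- A commuting family of normal operators `M x = A (J x) - J' (A x)` without common kernel:
every `Φ` with `M x (Φ y) = M y (Φ x)` is of the form `Φ x = M x v`. -/
lemma exists_v {L h : Type*} [AddCommGroup L] [Module ℝ L] [FiniteDimensional ℝ L]
    [AddCommGroup h] [Module ℝ h] [FiniteDimensional ℝ h]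
    (g : h →ₗ[ℝ] h →ₗ[ℝ] ℝ) (hs : ∀ u v, g u v = g v u) (hp : ∀ u, u ≠ 0 → 0 < g u u)
    (J' : h →ₗ[ℝ] h) (hJJ : ∀ u, J' (J' u) = -u) (hgJ : ∀ u w, g (J' u) w = -g u (J' w))
    (J : L →ₗ[ℝ] L) (A : L →ₗ[ℝ] h →ₗ[ℝ] h) (hgA : ∀ x u w, g (A x u) w = -g u (A x w))
    (hAJ : ∀ x u, A x (J' u) = J' (A x u)) (hAA : ∀ x y u, A x (A y u) = A y (A x u))
    (hker : ∀ w, (∀ x, A x w = 0) → w = 0) (Φ : L → h)
    (hΦ : ∀ x y, A (J x) (Φ y) - J' (A x (Φ y)) = A (J y) (Φ x) - J' (A y (Φ x))) :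
    ∃ v, ∀ x, A (J x) v - J' (A x v) = Φ x := by
  let b := Module.finBasis ℝ L
  let M : L →ₗ[ℝ] h →ₗ[ℝ] h :=
    LinearMap.mk₂ ℝ (fun x u => A (J x) u - J' (A x u))
      (by intro x y u; simp only [map_add, LinearMap.add_apply]; abel)
      (by intro c x u; simp only [map_smul, LinearMap.smul_apply, smul_sub])
      (by intro x u v; simp only [map_add]; abel)
      (by intro c x u; simp only [map_smul, smul_sub])
  let Ms : L →ₗ[ℝ] h →ₗ[ℝ] h :=
    LinearMap.mk₂ ℝ (fun x u => -(A (J x) u + J' (A x u)))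
      (by intro x y u; simp only [map_add, LinearMap.add_apply]; abel)
      (by intro c x u; simp only [map_smul, LinearMap.smul_apply, smul_add, smul_neg])
      (by intro x u v; simp only [map_add]; abel)
      (by intro c x u; simp only [map_smul, smul_add, smul_neg])
  have hM : ∀ x u, M x u = A (J x) u - J' (A x u) := fun x u => rfl
  have hMs : ∀ x u, Ms x u = -(A (J x) u + J' (A x u)) := fun x u => rfl
  have hadj : ∀ x u w, g (M x u) w = g u (Ms x w) := by
    intro x u w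
    rw [hM, hMs, map_sub, LinearMap.sub_apply, hgA, hgJ, hgA, hAJ, map_neg, map_add]
    ring
  have hadj' : ∀ x u w, g (Ms x u) w = g u (M x w) := by
    intro x u w
    rw [hs, ← hadj, hs]
  have hMM : ∀ x y u, M x (Ms y u) = Ms y (M x u) := by
    intro x y u
    simp only [hM, hMs, map_neg, map_add, map_sub, hAJ, hJJ, hAA (J x) (J y), hAA (J x) y,
      hAA x (J y), hAA x y]
    abel
  have hMM' : ∀ x y u, M x (M y u) = M y (M x u) := by
    intro x y u
    simp only [hM, map_sub, hAJ, hJJ, hAA (J x) (J y), hAA (J x) y,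
      hAA x (J y), hAA x y]
    abel
  let T : h →ₗ[ℝ] h := ∑ i, (Ms (b i)) ∘ₗ (M (b i))
  have hT : ∀ u, T u = ∑ i, Ms (b i) (M (b i) u) := by
    intro u
    simp only [T, LinearMap.sum_apply, LinearMap.comp_apply]
  have hg0 : ∀ u, 0 ≤ g u u := by
    intro u
    by_cases hu : u = 0
    · rw [hu, map_zero]
    · exact (hp u hu).le
  have hTinj : Function.Injective T := by
    rw [injective_iff_map_eq_zero]
    intro w hw
    have h1 : ∑ i, g (M (b i) w) (M (b i) w) = 0 := by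
      have h2 := congrArg (fun u => g u w) ((hT w).symm.trans hw)
      simp only [map_sum, LinearMap.sum_apply, map_zero, LinearMap.zero_apply] at h2
      rw [← h2]
      apply Finset.sum_congr rfl
      intro i _
      rw [hadj']
    have h2 := (Finset.sum_eq_zero_iff_of_nonneg (fun i _ => hg0 (M (b i) w))).mp h1
    have h3 : ∀ i, M (b i) w = 0 := by
      intro i
      by_contra hne
      have := hp _ hne
      rw [h2 i (Finset.mem_univ i)] at this
      exact lt_irrefl _ this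
    have h4 : ∀ x, M x w = 0 := by
      intro x
      have h5 : M.flip w = 0 := b.ext (fun i => by
        rw [LinearMap.flip_apply, h3, LinearMap.zero_apply])
      have h6 := LinearMap.congr_fun h5 x
      rwa [LinearMap.flip_apply, LinearMap.zero_apply] at h6
    have h5 : ∀ x, Ms x w = 0 := by
      intro x
      by_contra hne
      have h6 := hp _ hne
      rw [hadj', hMM, h4, map_zero, map_zero] at h6
      exact lt_irrefl _ h6
    apply hker
    intro x
    have h6 := h4 x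
    have h7 := h5 x
    rw [hM] at h6
    rw [hMs] at h7
    have h8 : (2 : ℝ) • J' (A x w) = 0 := by
      have h9 : (2 : ℝ) • J' (A x w) = -(A (J x) w - J' (A x w)) - -(A (J x) w + J' (A x w)) := by
        rw [two_smul]; abel
      rw [h9, h6, h7, neg_zero, sub_zero]
    have h9 := (smul_eq_zero.mp h8).resolve_left (by norm_num)
    have h10 := hJJ (A x w)
    rw [h9, map_zero] at h10
    exact neg_eq_zero.mp h10.symm
  obtain ⟨v, hv⟩ := (LinearMap.injective_iff_surjective.mp hTinj) (∑ i, Ms (b i) (Φ (b i)))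
  refine ⟨v, fun x => hTinj ?_⟩
  have h1 : T (M x v) = M x (T v) := by
    rw [hT, hT, map_sum]
    apply Finset.sum_congr rfl
    intro i _
    rw [hMM, hMM']
  have h2 : T (Φ x) = ∑ i, M x (Ms (b i) (Φ (b i))) := by
    rw [hT]
    apply Finset.sum_congr rfl
    intro i _
    rw [hMM]
    congr 1
    exact hΦ (b i) x
  show T (M x v) = T (Φ x)
  rw [h1, hv, h2, map_sum]

section Main

variable {L : Type*} [LieRing L] [LieAlgebra ℝ L] [FiniteDimensional ℝ L]
  {J : L →ₗ[ℝ] L} {Ω : L →ₗ[ℝ] L →ₗ[ℝ] ℝ}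

theorem kahler_of_abelian (T : Tame J Ω)
    (huni : ∀ x : L, LinearMap.trace ℝ L (LieAlgebra.ad ℝ L x) = 0)
    (hab : ∀ x y z w : L, ⁅⁅x, y⁆, ⁅z, w⁆⁆ = 0) :
    ∃ ω : L →ₗ[ℝ] L →ₗ[ℝ] ℝ, (∀ x, ω x x = 0) ∧
      (∀ x y z, ω ⁅x, y⁆ z + ω ⁅y, z⁆ x + ω ⁅z, x⁆ y = 0) ∧
      (∀ x y, ω (J x) (J y) = ω x y) ∧ ∀ x, x ≠ 0 → 0 < ω x (J x) := by
  set h : Submodule ℝ L := Submodule.span ℝ {z : L | ∃ a b : L, ⁅a, b⁆ = z} with hh
  have hmem : ∀ x y : L, ⁅x, y⁆ ∈ h := fun x y => Submodule.subset_span ⟨x, y, rfl⟩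
  have hid : ∀ x : L, ∀ u ∈ h, ⁅x, u⁆ ∈ h := fun x u _ => hmem x u
  have hJ : ∀ u ∈ h, J u ∈ h := by
    intro u hu
    have : h ≤ h.comap J := by
      rw [hh, Submodule.span_le]
      rintro z ⟨a, b, rfl⟩
      exact T.derived_J huni a b
    exact this hu
  have hab1 : ∀ x y : L, ∀ v ∈ h, ⁅⁅x, y⁆, v⁆ = 0 := by
    intro x y v hv
    induction hv using Submodule.span_induction with
    | mem z hz =>
      obtain ⟨a, b, rfl⟩ := hz
      exact hab _ _ _ _
    | zero => exact lie_zero _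
    | add y z _ _ h1 h2 => rw [lie_add, h1, h2, add_zero]
    | smul t y _ h1 => rw [lie_smul, h1, smul_zero]
  have hab2 : ∀ u ∈ h, ∀ v ∈ h, ⁅u, v⁆ = 0 := by
    intro u hu v hv
    induction hu using Submodule.span_induction with
    | mem z hz =>
      obtain ⟨a, b, rfl⟩ := hz
      exact hab1 _ _ _ hv
    | zero => exact zero_lie _
    | add y z _ _ h1 h2 => rw [add_lie, h1, h2, add_zero]
    | smul t y _ h1 => rw [smul_lie, h1, smul_zero]
  have hc : ∀ x : L, ∀ u ∈ h, ⁅x, J u⁆ = J ⁅x, u⁆ := fun x u hu =>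
    comm_on T hJ hid hab2 x (fun v hv => hab1 _ _ _ hv) u hu
  have hskewO : ∀ x u v : L, u ∈ h → v ∈ h → Ω ⁅x, u⁆ v = -Ω u ⁅x, v⁆ := fun x u v hu hv =>
    skew_on T hab2 x u v hu hv
  have hskewg : ∀ x u v : L, u ∈ h → v ∈ h → gf J Ω ⁅x, u⁆ v = -gf J Ω u ⁅x, v⁆ :=
    fun x u v hu hv => gskew_on T hJ hab2 x (hc x) u v hu hv
  -- the projection along the symplectic complement
  let Oh : h →ₗ[ℝ] h →ₗ[ℝ] ℝ := Ω.compl₁₂ h.subtype h.subtype
  have hOinj : Function.Injective Oh := by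
    rw [injective_iff_map_eq_zero]
    intro x hx
    by_contra hne
    have h1 := T.tame (x : L) (fun h0 => hne (Subtype.ext h0))
    have h2 : Oh x ⟨J x, hJ x x.2⟩ = 0 := by rw [hx, LinearMap.zero_apply]
    have h3 : Oh x ⟨J x, hJ x x.2⟩ = Ω (x : L) (J x) := rfl
    rw [← h3, h2] at h1
    exact lt_irrefl _ h1
  let e : h ≃ₗ[ℝ] (Dual ℝ h) :=
    LinearMap.linearEquivOfInjective Oh hOinj (Subspace.dual_finrank_eq).symm
  let P : L →ₗ[ℝ] h := e.symm.toLinearMap ∘ₗ (Ω.compl₂ h.subtype)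
  have hP : ∀ (x : L) (u : h), Ω (P x : L) (u : L) = Ω x (u : L) := by
    intro x u
    have h1 : e (P x) = Ω.compl₂ h.subtype x := e.apply_symm_apply _
    exact LinearMap.congr_fun h1 u
  have hPh : ∀ u : h, P (u : L) = u := by
    intro u
    apply hOinj
    ext w
    exact hP u w
  let A : L →ₗ[ℝ] h →ₗ[ℝ] h :=
    LinearMap.mk₂ ℝ (fun x u => (⟨⁅x, (u : L)⁆, hmem _ _⟩ : h))
      (by intro x y u; apply Subtype.ext; simp)
      (by intro c x u; apply Subtype.ext; simp)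
      (by intro x u v; apply Subtype.ext; simp)
      (by intro c x u; apply Subtype.ext; simp)
  have hA : ∀ x u, ((A x u : h) : L) = ⁅x, (u : L)⁆ := fun x u => rfl
  -- the complement is abelian
  have hbr0 : ∀ x y : L, P x = 0 → P y = 0 → ⁅x, y⁆ = 0 := by
    intro x y hx hy
    have h0 : ∀ (z : L), P z = 0 → ∀ u ∈ h, Ω z u = 0 := by
      intro z hz u hu
      have h1 := hP z ⟨u, hu⟩
      rw [hz] at h1
      rw [← h1]
      simp
    by_contra hne
    have h1 := T.tame _ hne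
    have h2 := T.closed x y (J ⁅x, y⁆)
    have h3 : Ω ⁅y, J ⁅x, y⁆⁆ x = 0 := by
      rw [skew_of_alt T.alt, h0 x hx _ (hmem _ _), neg_zero]
    have h4 : Ω ⁅J ⁅x, y⁆, x⁆ y = 0 := by
      rw [skew_of_alt T.alt, h0 y hy _ (hmem _ _), neg_zero]
    rw [h3, h4] at h2
    linarith
  have hbr : ∀ x y : L, ⁅x, y⁆ = ⁅x, (P y : L)⁆ - ⁅y, (P x : L)⁆ := by
    intro x y
    have h1 := hbr0 (x - P x) (y - P y) (by rw [map_sub, hPh, sub_self])
      (by rw [map_sub, hPh, sub_self])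
    have h2 : ⁅(P x : L), (P y : L)⁆ = 0 := hab2 _ (P x).2 _ (P y).2
    rw [sub_lie, lie_sub, lie_sub, h2, sub_zero, ← lie_skew (P x : L) y] at h1
    have h3 : ⁅x, y⁆ = (⁅x, y⁆ - ⁅x, (P y : L)⁆ - -⁅y, (P x : L)⁆) + ⁅x, (P y : L)⁆
        - ⁅y, (P x : L)⁆ := by abel
    rw [h3, h1, zero_add]
  let Jh : h →ₗ[ℝ] h := J.restrict hJ
  have hJh : ∀ u : h, ((Jh u : h) : L) = J (u : L) := fun u => rfl
  let g : h →ₗ[ℝ] h →ₗ[ℝ] ℝ := (gf J Ω).compl₁₂ h.subtype h.subtype
  have hg : ∀ u v : h, g u v = gf J Ω (u : L) (v : L) := fun u v => rfl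
  obtain ⟨v, hv⟩ := exists_v g (fun u v => gf_symm _ _)
    (fun u hu => gf_pos T _ (fun h0 => hu (Subtype.ext h0))) Jh
    (fun u => Subtype.ext (T.jj u)) (fun u w => by
      rw [hg, hg, gf_apply, gf_apply, hJh, hJh, T.jj, T.jj, map_neg, map_neg,
        skew_of_alt T.alt (J (u : L)) (J (w : L)), skew_of_alt T.alt (w : L) (u : L)]
      ring) J A
    (fun x u w => hskewg x u w u.2 w.2) (fun x u => Subtype.ext (hc x u u.2))
    (fun x y u => Subtype.ext (by
      rw [hA, hA, hA, hA, leibniz_lie, hab1 x y u u.2, zero_add]))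
    (fun w hw => by
      by_contra hne
      have h1 := gf_pos T (w : L) (fun h0 => hne (Subtype.ext h0))
      have h2 : ∀ u ∈ h, gf J Ω (w : L) u = 0 := by
        intro u hu
        induction hu using Submodule.span_induction with
        | mem z hz =>
          obtain ⟨a, b, rfl⟩ := hz
          have h3 := hskewg a w (P b) w.2 (P b).2
          have h4 := hskewg b w (P a) w.2 (P a).2
          have h5 : ⁅a, (w : L)⁆ = 0 := by rw [← hA, hw, ZeroMemClass.coe_zero]
          have h6 : ⁅b, (w : L)⁆ = 0 := by rw [← hA, hw, ZeroMemClass.coe_zero]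
          rw [h5, map_zero, LinearMap.zero_apply] at h3
          rw [h6, map_zero, LinearMap.zero_apply] at h4
          rw [hbr a b, map_sub]
          linarith
        | zero => exact map_zero _
        | add y z _ _ h1 h2 => rw [map_add, h1, h2, add_zero]
        | smul t y _ h1 => rw [map_smul, h1, smul_zero]
      rw [h2 w w.2] at h1
      exact lt_irrefl _ h1)
    (fun x => P (J x) - Jh (P x)) (fun x y => by
      apply Subtype.ext
      simp only [AddSubgroupClass.coe_sub, hA, hJh, map_sub, hc _ _ (P _).2, T.jj]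
      have h1 := T.int x y
      rw [hbr x y, hbr (J x) y, hbr x (J y), hbr (J x) (J y)] at h1
      simp only [map_sub] at h1
      rw [← sub_eq_zero] at h1
      rw [← sub_eq_zero, ← h1]
      abel)
  -- the corrected projection
  let s : L →ₗ[ℝ] L := h.subtype ∘ₗ (P - A.flip v)
  have hsx : ∀ x, s x = (P x : L) - ⁅x, (v : L)⁆ := fun x => rfl
  have hsm : ∀ x, s x ∈ h := fun x => ((P - A.flip v) x).2
  have hsh : ∀ u ∈ h, s u = u := by
    intro u hu
    rw [hsx, hab2 u hu v v.2, sub_zero]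
    exact congrArg Subtype.val (hPh ⟨u, hu⟩)
  have hsJ : ∀ x, s (J x) = J (s x) := by
    intro x
    have h1 := congrArg Subtype.val (hv x)
    simp only [AddSubgroupClass.coe_sub, hA, hJh] at h1
    rw [hsx, hsx, map_sub]
    have h2 : ((P (J x) : h) : L) - ⁅J x, (v : L)⁆ - (J (P x : L) - J ⁅x, (v : L)⁆) =
        (((P (J x) : h) : L) - J (P x : L)) - (⁅J x, (v : L)⁆ - J ⁅x, (v : L)⁆) := by abel
    rw [← sub_eq_zero, h2, h1, sub_self]
  have hsbr : ∀ x y : L, ⁅x, y⁆ = ⁅x, s y⁆ - ⁅y, s x⁆ := by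
    intro x y
    rw [hsx, hsx, lie_sub, lie_sub]
    have h1 : ⁅x, ⁅y, (v : L)⁆⁆ = ⁅y, ⁅x, (v : L)⁆⁆ := by
      rw [leibniz_lie, hab1 x y v v.2, zero_add]
    rw [h1, hbr x y]
    abel
  let F : L →ₗ[ℝ] L →ₗ[ℝ] ℝ := Ω + Ω.compl₁₂ J J
  have hF : ∀ x y, F x y = Ω x y + Ω (J x) (J y) := fun x y => rfl
  have hFalt : ∀ x, F x x = 0 := by intro x; rw [hF, T.alt, T.alt, add_zero]
  have hFJ : ∀ x y, F (J x) (J y) = F x y := by
    intro x y
    rw [hF, hF, T.jj, T.jj, map_neg, map_neg, LinearMap.neg_apply, neg_neg, add_comm]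
  have hFp : ∀ x, x ≠ 0 → 0 < F x (J x) := by
    intro x hx
    rw [hF, T.jj, map_neg, ← skew_of_alt T.alt x (J x)]
    have := T.tame x hx
    linarith
  have hFp' : ∀ x, 0 ≤ F x (J x) := by
    intro x
    by_cases hx : x = 0
    · simp [hx]
    · exact (hFp x hx).le
  have hFs : ∀ x u w : L, u ∈ h → w ∈ h → F ⁅x, u⁆ w = -F u ⁅x, w⁆ := by
    intro x u w hu hw
    rw [hF, hF, ← hc x u hu, ← hc x w hw, hskewO x u w hu hw,
      hskewO x (J u) (J w) (hJ u hu) (hJ w hw)]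
    ring
  let ω : L →ₗ[ℝ] L →ₗ[ℝ] ℝ := F.compl₁₂ s s + F.compl₁₂ (LinearMap.id - s) (LinearMap.id - s)
  have hω : ∀ x y, ω x y = F (s x) (s y) + F (x - s x) (y - s y) := fun x y => rfl
  refine ⟨ω, ?_, ?_, ?_, ?_⟩
  · intro x
    rw [hω, hFalt, hFalt, add_zero]
  · intro x y z
    have h1 : ∀ a b c : L, ω ⁅a, b⁆ c = F ⁅a, s b⁆ (s c) - F ⁅b, s a⁆ (s c) := by
      intro a b c
      rw [hω, hsh _ (hmem a b), sub_self, map_zero, LinearMap.zero_apply, add_zero, hsbr a b,
        map_sub, LinearMap.sub_apply]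
    rw [h1, h1, h1, hFs x (s y) (s z) (hsm y) (hsm z), hFs y (s x) (s z) (hsm x) (hsm z),
      hFs z (s y) (s x) (hsm y) (hsm x), skew_of_alt hFalt ⁅y, s z⁆ (s x),
      skew_of_alt hFalt ⁅z, s x⁆ (s y), skew_of_alt hFalt ⁅x, s z⁆ (s y)]
    ring
  · intro x y
    rw [hω, hω, hsJ, hsJ, ← map_sub, ← map_sub, hFJ, hFJ]
  · intro x hx
    rw [hω, hsJ, ← map_sub]
    by_cases hsx0 : s x = 0
    · have h1 := hFp x hx
      simpa [hsx0] using h1
    · have h1 := hFp _ hsx0
      have h2 := hFp' (x - s x)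
      linarith

end Main

end Pool.Agent.STK
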