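import Pool.Agent.STK.Fix

set_option autoImplicit false

/-!
# Simply transitive affine actions have solvable Lie algebras
-/

open Module

namespace Pool.Agent.STK

section

variable {L W : Type*} [LieRing L] [LieAlgebra ℝ L] [FiniteDimensional ℝ L]
  [AddCommGroup W] [Module ℝ W] [FiniteDimensional ℝ W] [LieRingModule L W] [LieModule ℝ L W]

/-- A `1`-cocycle with values in an irreducible module which vanishes on the kernel of the
action is a coboundary. -/
theorem fixed_point (hirr : ∀ N : LieSubmodule ℝ L W, N ≠ ⊥ → N = ⊤)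
    (f : L →ₗ[ℝ] W) (hf : ∀ x y, f ⁅x, y⁆ = ⁅x, f y⁆ - ⁅y, f x⁆)
    (hM : ∀ m : L, (∀ w : W, ⁅m, w⁆ = 0) → f m = 0) : ∃ w : W, ∀ x, f x = ⁅x, w⁆ := by
  rcases subsingleton_or_nontrivial W with hs | hn
  · exact ⟨0, fun x => Subsingleton.elim _ _⟩
  have hcen := radW_central (L := L) (W := W) hirr
  by_cases hz : ∃ k ∈ radW L W, ∃ w : W, ⁅k, w⁆ ≠ 0
  · obtain ⟨k, hk, w0, hw0⟩ := hz
    let N : LieSubmodule ℝ L W :=
      { carrier := {w | ⁅k, w⁆ = 0}
        add_mem' := by
          intro a b ha hb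
          show ⁅k, a + b⁆ = 0
          rw [lie_add, show ⁅k, a⁆ = 0 from ha, show ⁅k, b⁆ = 0 from hb, add_zero]
        zero_mem' := lie_zero k
        smul_mem' := by
          intro t a ha
          show ⁅k, t • a⁆ = 0
          rw [lie_smul, show ⁅k, a⁆ = 0 from ha, smul_zero]
        lie_mem := by
          intro x m hm
          show ⁅k, ⁅x, m⁆⁆ = 0
          rw [leibniz_lie k x m, show ⁅k, m⁆ = 0 from hm, lie_zero, add_zero,
            ← lie_skew k x, neg_lie, hcen x k hk, neg_zero] }
    have hN : N = ⊥ := by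
      by_contra hne
      have h1 := hirr N hne
      have h2 : w0 ∈ N := by
        rw [h1]
        exact LieSubmodule.mem_top _
      exact hw0 h2
    have hinj : Function.Injective (LieModule.toEnd ℝ L W k) := by
      rw [injective_iff_map_eq_zero]
      intro w hw
      have h1 : w ∈ N := hw
      rwa [hN, LieSubmodule.mem_bot] at h1
    obtain ⟨w, hw⟩ := (LinearMap.injective_iff_surjective.mp hinj) (f k)
    have hw' : ⁅k, w⁆ = f k := hw
    refine ⟨w, fun x => ?_⟩
    apply hinj
    show ⁅k, f x⁆ = ⁅k, ⁅x, w⁆⁆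
    have h1 : ∀ v : W, ⁅⁅k, x⁆, v⁆ = 0 := by
      intro v
      rw [← lie_skew k x, neg_lie, hcen x k hk, neg_zero]
    have h2 := hf k x
    rw [hM _ h1] at h2
    rw [leibniz_lie k x w, h1, zero_add, hw']
    exact sub_eq_zero.mp h2.symm
  · have hz' : ∀ k ∈ radW L W, ∀ w : W, ⁅k, w⁆ = 0 := by
      intro k hk w
      by_contra hne
      exact hz ⟨k, hk, w, hne⟩
    have hfK : ∀ k ∈ radW L W, f k = 0 := fun k hk => hM k (hz' k hk)
    by_cases hT : ∀ x : L, x ∈ radW L W
    · exact ⟨0, fun x => by rw [hfK x (hT x), lie_zero]⟩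
    obtain ⟨b, hb'⟩ := LinearMap.BilinForm.exists_orthogonal_basis
      (LieModule.traceForm_isSymm ℝ L W)
    have hb : ∀ i j, i ≠ j → LieModule.traceForm ℝ L W (b i) (b j) = 0 :=
      fun i j hij => hb' hij
    set β := LieModule.traceForm ℝ L W with hβ
    let Cas : End ℝ W := ∑ i, (β (b i) (b i))⁻¹ •
      (LieModule.toEnd ℝ L W (b i) * LieModule.toEnd ℝ L W (b i))
    have hCas : ∀ w, Cas w = ∑ i, (β (b i) (b i))⁻¹ • ⁅b i, ⁅b i, w⁆⁆ := by
      intro w
      show (∑ i, (β (b i) (b i))⁻¹ •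
        (LieModule.toEnd ℝ L W (b i) * LieModule.toEnd ℝ L W (b i))) w = _
      rw [LinearMap.sum_apply]
      rfl
    have htr : LinearMap.trace ℝ W Cas = ∑ i, (β (b i) (b i))⁻¹ * β (b i) (b i) := by
      show LinearMap.trace ℝ W (∑ i, (β (b i) (b i))⁻¹ •
        (LieModule.toEnd ℝ L W (b i) * LieModule.toEnd ℝ L W (b i))) = _
      rw [map_sum]
      apply Finset.sum_congr rfl
      intro i _
      rw [map_smul, smul_eq_mul]
      rfl
    have htr0 : LinearMap.trace ℝ W Cas ≠ 0 := by
      rw [htr]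
      intro h0
      apply hT
      have h1 := (Finset.sum_eq_zero_iff_of_nonneg (fun i _ => by
        by_cases hd : β (b i) (b i) = 0
        · rw [hd, mul_zero]
        · rw [inv_mul_cancel₀ hd]
          exact zero_le_one)).mp h0
      have h2 : ∀ i, β (b i) (b i) = 0 := by
        intro i
        by_contra hd
        have h3 := h1 i (Finset.mem_univ i)
        rw [inv_mul_cancel₀ hd] at h3
        exact one_ne_zero h3
      have h3 : β = 0 := by
        apply b.ext
        intro i
        apply b.ext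
        intro j
        by_cases hij : i = j
        · rw [← hij, h2 i]
          rfl
        · rw [hb i j hij]
          rfl
      intro x
      rw [mem_radW]
      intro y
      rw [← hβ, h3]
      rfl
    have hCne : Cas ≠ 0 := by
      intro h0
      rw [h0, map_zero] at htr0
      exact htr0 rfl
    -- the Casimir operator commutes with the action
    have hcomm : ∀ x : L, ∀ w : W, ⁅x, Cas w⁆ = Cas ⁅x, w⁆ := by
      intro x w
      let E : L →ₗ[ℝ] L →ₗ[ℝ] W :=
        LinearMap.mk₂ ℝ (fun y z => ⁅y, ⁅z, w⁆⁆)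
          (by intro a b c; rw [add_lie])
          (by intro t a c; rw [smul_lie])
          (by intro a b c; rw [add_lie, lie_add])
          (by intro t a c; rw [smul_lie, lie_smul])
      have h1 := casimir_inv b hb E (fun k hk z => hz' k hk _)
        (fun k hk z => by
          show ⁅z, ⁅k, w⁆⁆ = 0
          rw [hz' k hk, lie_zero]) x
      have h2 : ∀ i, ⁅x, (β (b i) (b i))⁻¹ • ⁅b i, ⁅b i, w⁆⁆⁆ -
          (β (b i) (b i))⁻¹ • ⁅b i, ⁅b i, ⁅x, w⁆⁆⁆ =
          (β (b i) (b i))⁻¹ • (E ⁅x, b i⁆ (b i) + E (b i) ⁅x, b i⁆) := by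
        intro i
        have h3 : E ⁅x, b i⁆ (b i) + E (b i) ⁅x, b i⁆ =
            ⁅⁅x, b i⁆, ⁅b i, w⁆⁆ + ⁅b i, ⁅⁅x, b i⁆, w⁆⁆ := rfl
        rw [h3, lie_smul, ← smul_sub, leibniz_lie x (b i) ⁅b i, w⁆, leibniz_lie x (b i) w, lie_add]
        congr 1
        abel
      have h4 : ⁅x, Cas w⁆ - Cas ⁅x, w⁆ = 0 := by
        rw [hCas, hCas, lie_sum, ← Finset.sum_sub_distrib, ← h1]
        apply Finset.sum_congr rfl
        intro i _
        exact h2 i
      exact sub_eq_zero.mp h4
    let N : LieSubmodule ℝ L W :=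
      { carrier := {w | Cas w = 0}
        add_mem' := by
          intro a b ha hb
          show Cas (a + b) = 0
          rw [map_add, show Cas a = 0 from ha, show Cas b = 0 from hb, add_zero]
        zero_mem' := map_zero Cas
        smul_mem' := by
          intro t a ha
          show Cas (t • a) = 0
          rw [map_smul, show Cas a = 0 from ha, smul_zero]
        lie_mem := by
          intro x m hm
          show Cas ⁅x, m⁆ = 0
          rw [← hcomm, show Cas m = 0 from hm, lie_zero] }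
    have hN : N = ⊥ := by
      by_contra hne
      have h1 := hirr N hne
      apply hCne
      apply LinearMap.ext
      intro w
      have h2 : w ∈ N := by
        rw [h1]
        exact LieSubmodule.mem_top _
      exact h2
    have hinj : Function.Injective Cas := by
      rw [injective_iff_map_eq_zero]
      intro w hw
      have h1 : w ∈ N := hw
      rwa [hN, LieSubmodule.mem_bot] at h1
    -- the fixed point
    obtain ⟨w, hw⟩ := (LinearMap.injective_iff_surjective.mp hinj)
      (∑ i, (β (b i) (b i))⁻¹ • ⁅b i, f (b i)⁆)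
    refine ⟨w, fun x => ?_⟩
    apply hinj
    rw [← hcomm, hw]
    let E : L →ₗ[ℝ] L →ₗ[ℝ] W :=
      LinearMap.mk₂ ℝ (fun y z => ⁅y, f z⁆)
        (by intro a b c; rw [add_lie])
        (by intro t a c; rw [smul_lie])
        (by intro a b c; rw [map_add, lie_add])
        (by intro t a c; rw [map_smul, lie_smul])
    have h1 := casimir_inv b hb E (fun k hk z => hz' k hk _)
      (fun k hk z => by
        show ⁅z, f k⁆ = 0
        rw [hfK k hk, lie_zero]) x
    have h2 : ∀ i, ⁅x, (β (b i) (b i))⁻¹ • ⁅b i, f (b i)⁆⁆ -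
        (β (b i) (b i))⁻¹ • ⁅b i, ⁅b i, f x⁆⁆ =
        (β (b i) (b i))⁻¹ • (E ⁅x, b i⁆ (b i) + E (b i) ⁅x, b i⁆) := by
      intro i
      have h3 : E ⁅x, b i⁆ (b i) + E (b i) ⁅x, b i⁆ =
          ⁅⁅x, b i⁆, f (b i)⁆ + ⁅b i, f ⁅x, b i⁆⁆ := rfl
      rw [h3, lie_smul, ← smul_sub, leibniz_lie x (b i) (f (b i)), hf x (b i), lie_sub]
      congr 1
      abel
    have h4 : ⁅x, ∑ i, (β (b i) (b i))⁻¹ • ⁅b i, f (b i)⁆⁆ - Cas (f x) = 0 := by
      rw [hCas, lie_sum, ← Finset.sum_sub_distrib, ← h1]
      apply Finset.sum_congr rfl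
      intro i _
      exact h2 i
    exact (sub_eq_zero.mp h4).symm

end

end Pool.Agent.STK
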