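import Pool.Agent.STK.MatK

set_option autoImplicit false

/-!
# Unimodular symplectic Lie algebras: exact forms are nilpotent
-/

open Module

namespace Pool.Agent.STK.K

variable {K : Type*} [Field K] [CharZero K] {L : Type*} [LieRing L] [LieAlgebra K L]

omit [CharZero K] in
lemma skew_of_alt {V : Type*} [AddCommGroup V] [Module K V] {w : V →ₗ[K] V →ₗ[K] K}
    (h : ∀ x, w x x = 0) (x y : V) : w x y = -w y x := by
  have h1 := h (x + y)
  simp only [map_add, LinearMap.add_apply, h x, h y, zero_add, add_zero] at h1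
  exact eq_neg_of_add_eq_zero_right h1

lemma trace_exact [FiniteDimensional K L] (w : L →ₗ[K] L →ₗ[K] K) (halt : ∀ x, w x x = 0)
    (hcl : ∀ x y z, w ⁅x, y⁆ z + w ⁅y, z⁆ x + w ⁅z, x⁆ y = 0)
    (hinj : Function.Injective w) (γ : L →ₗ[K] K) (E : End K L)
    (hE : ∀ x y, w (E x) y = -γ ⁅x, y⁆)
    (huni : ∀ x : L, LinearMap.trace K L (LieAlgebra.ad K L x) = 0) :
    LinearMap.trace K L E = 0 := by
  let e : L ≃ₗ[K] (Dual K L) :=
    LinearMap.linearEquivOfInjective w hinj (Subspace.dual_finrank_eq).symm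
  have he : ∀ x, e x = w x := fun x => rfl
  obtain ⟨ξ, hξ⟩ := e.surjective γ
  rw [he] at hξ
  let D : End K L := LieAlgebra.ad K L ξ
  let Dt : End K L := e.symm.conj (Module.Dual.transpose D)
  have hDt : ∀ x y, w (Dt x) y = w x ⁅ξ, y⁆ := by
    intro x y
    rw [← he, ← he]
    show (e (e.symm (Module.Dual.transpose D (e x)))) y = _
    rw [LinearEquiv.apply_symm_apply]
    rfl
  have hED : E = -(D + Dt) := by
    ext1 x
    apply hinj
    ext1 y
    rw [hE, LinearMap.neg_apply, LinearMap.add_apply, map_neg, LinearMap.neg_apply, map_add,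
      LinearMap.add_apply, hDt]
    have h1 := hcl ξ x y
    have h2 : w ⁅x, y⁆ ξ = -w ξ ⁅x, y⁆ := skew_of_alt halt _ _
    have h3 : w ⁅y, ξ⁆ x = w x ⁅ξ, y⁆ := by
      rw [skew_of_alt halt, ← lie_skew ξ y, map_neg]
    have h4 : D x = ⁅ξ, x⁆ := rfl
    rw [h4, ← hξ]
    linear_combination h1 - h2 - h3
  have htr : LinearMap.trace K L Dt = 0 := by
    show LinearMap.trace K L (e.symm.conj (Module.Dual.transpose D)) = 0
    rw [LinearMap.trace_conj', LinearMap.trace_transpose']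
    exact huni ξ
  rw [hED, map_neg, map_add, htr, huni ξ, add_zero, neg_zero]

/-- In a unimodular symplectic Lie algebra the operator of an exact form is nilpotent. -/
theorem exact_nilpotent [FiniteDimensional K L] (Ω : L →ₗ[K] L →ₗ[K] K)
    (halt : ∀ x, Ω x x = 0) (hcl : ∀ x y z, Ω ⁅x, y⁆ z + Ω ⁅y, z⁆ x + Ω ⁅z, x⁆ y = 0)
    (hinj : Function.Injective Ω)
    (huni : ∀ x : L, LinearMap.trace K L (LieAlgebra.ad K L x) = 0) (γ : L →ₗ[K] K)
    (N : End K L) (hNγ : ∀ x y, Ω (N x) y = -γ ⁅x, y⁆) : IsNilpotent N := by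
  let B : L →ₗ[K] L →ₗ[K] K :=
    LinearMap.mk₂ K (fun x y => -γ ⁅x, y⁆)
      (by intro a b c; rw [add_lie, map_add]; ring)
      (by intro a b c; rw [smul_lie, map_smul, smul_eq_mul, smul_eq_mul]; ring)
      (by intro a b c; rw [lie_add, map_add]; ring)
      (by intro a b c; rw [lie_smul, map_smul, smul_eq_mul, smul_eq_mul]; ring)
  have hB : ∀ x y, B x y = -γ ⁅x, y⁆ := fun x y => rfl
  have hN : ∀ x, Ω (N x) = B x := by
    intro x
    ext y
    rw [hNγ, hB]
  apply isNilpotent_of_trace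
  intro t A hA
  have hA' : (1 - t • N) * A = 1 := mul_eq_one_comm.mp hA
  have hw : ∀ x, (Ω - t • B) x = Ω ((1 - t • N) x) := by
    intro x
    rw [LinearMap.sub_apply, LinearMap.sub_apply, map_sub, LinearMap.smul_apply,
      LinearMap.smul_apply, map_smul, hN, Module.End.one_apply]
  apply trace_exact (Ω - t • B) ?_ ?_ ?_ γ (A * N) ?_ huni
  · intro x
    rw [LinearMap.sub_apply, LinearMap.sub_apply, halt, LinearMap.smul_apply,
      LinearMap.smul_apply, hB, lie_self, map_zero, neg_zero, smul_zero, sub_zero]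
  · intro x y z
    simp only [LinearMap.sub_apply, LinearMap.smul_apply, hB, smul_eq_mul]
    have h1 := hcl x y z
    have h2 : ⁅⁅x, y⁆, z⁆ + ⁅⁅y, z⁆, x⁆ + ⁅⁅z, x⁆, y⁆ = 0 := by
      have := lie_jacobi x y z
      rw [← lie_skew x ⁅y, z⁆, ← lie_skew y ⁅z, x⁆, ← lie_skew z ⁅x, y⁆] at this
      have h3 : ⁅⁅x, y⁆, z⁆ + ⁅⁅y, z⁆, x⁆ + ⁅⁅z, x⁆, y⁆ =
          -(-⁅⁅y, z⁆, x⁆ + -⁅⁅z, x⁆, y⁆ + -⁅⁅x, y⁆, z⁆) := by abel
      rw [h3, this, neg_zero]
    have h4 := congrArg γ h2
    rw [map_add, map_add, map_zero] at h4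
    linear_combination h1 + t * h4
  · intro x y hxy
    rw [hw, hw] at hxy
    have h1 := hinj hxy
    have h2 := congrArg A h1
    have h3 : ∀ z, A ((1 - t • N) z) = z := fun z => LinearMap.congr_fun hA z
    rw [h3, h3] at h2
    exact h2
  · intro x y
    rw [hw]
    have h3 : (1 - t • N) ((A * N) x) = N x := LinearMap.congr_fun hA' (N x)
    rw [h3, hN, hB]

/-- No element of a unimodular symplectic Lie algebra is linearised: if `Ω (e, z) = β [e, z]` for
all `z` then `e = 0`. -/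
theorem eq_zero_of_exact [FiniteDimensional K L] (Ω : L →ₗ[K] L →ₗ[K] K)
    (halt : ∀ x, Ω x x = 0) (hcl : ∀ x y z, Ω ⁅x, y⁆ z + Ω ⁅y, z⁆ x + Ω ⁅z, x⁆ y = 0)
    (hinj : Function.Injective Ω)
    (huni : ∀ x : L, LinearMap.trace K L (LieAlgebra.ad K L x) = 0) (β : L →ₗ[K] K)
    (e : L) (he : ∀ z, Ω e z = β ⁅e, z⁆) : e = 0 := by
  let E : L ≃ₗ[K] (Dual K L) :=
    LinearMap.linearEquivOfInjective Ω hinj (Subspace.dual_finrank_eq).symm
  let B : L →ₗ[K] L →ₗ[K] K :=
    LinearMap.mk₂ K (fun x y => -β ⁅x, y⁆)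
      (by intro a b c; rw [add_lie, map_add]; ring)
      (by intro a b c; rw [smul_lie, map_smul, smul_eq_mul, smul_eq_mul]; ring)
      (by intro a b c; rw [lie_add, map_add]; ring)
      (by intro a b c; rw [lie_smul, map_smul, smul_eq_mul, smul_eq_mul]; ring)
  let N : End K L := E.symm.toLinearMap ∘ₗ B
  have hN : ∀ x, Ω (N x) = B x := fun x => E.apply_symm_apply (B x)
  have hnil := exact_nilpotent Ω halt hcl hinj huni β N (fun x y => by rw [hN]; rfl)
  have h1 : N e = -e := by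
    apply hinj
    rw [hN, map_neg]
    ext z
    rw [LinearMap.neg_apply, he]
    rfl
  obtain ⟨k, hk⟩ := hnil
  have h2 : ∀ j : ℕ, (N ^ j) e = (-1 : K) ^ j • e := by
    intro j
    induction j with
    | zero => rw [pow_zero, pow_zero, one_smul, Module.End.one_apply]
    | succ j ih =>
      rw [pow_succ', Module.End.mul_apply, ih, map_smul, h1, smul_neg, pow_succ, mul_comm,
        mul_smul, neg_smul, one_smul]
  have h3 := h2 k
  rw [hk, LinearMap.zero_apply] at h3
  exact (smul_eq_zero.mp h3.symm).resolve_left (pow_ne_zero _ (neg_ne_zero.mpr one_ne_zero))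

end Pool.Agent.STK.K
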