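import Pool.Agent.STK.Basic

set_option autoImplicit false

/-!
# Commuting with the complex structure

A linear-algebra lemma: two commuting operators `A`, `B`, skew for a symplectic form which tames
`J`, with `B J = A + J B + J A J`, commute with `J`.  (`A + i B` is normal for an indefinite
hermitian form and preserves a maximal positive subspace; a trace computation.)
-/

open Module

namespace Pool.Agent.STK

/-- In finite dimension a hyponormal operator is normal (norm form). -/
lemma hypo_ips {W : Type*} [NormedAddCommGroup W] [InnerProductSpace ℝ W] [FiniteDimensional ℝ W]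
    (a as : W →ₗ[ℝ] W) (had : ∀ u v : W, inner ℝ (as u) v = inner ℝ u (a v))
    (hle : ∀ u, inner ℝ (a u) (a u) ≤ inner ℝ (as u) (as u)) (u : W) :
    inner ℝ (a u) (a u) = inner ℝ (as u) (as u) := by
  let b := stdOrthonormalBasis ℝ W
  have h1 : LinearMap.trace ℝ W (as * a) = ∑ i, inner ℝ (a (b i)) (a (b i)) := by
    rw [LinearMap.trace_eq_sum_inner (as * a) b]
    apply Finset.sum_congr rfl
    intro i _
    rw [Module.End.mul_apply, real_inner_comm, had]
  have h2 : LinearMap.trace ℝ W (a * as) = ∑ i, inner ℝ (as (b i)) (as (b i)) := by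
    rw [LinearMap.trace_eq_sum_inner (a * as) b]
    apply Finset.sum_congr rfl
    intro i _
    rw [Module.End.mul_apply, had]
  have h3 : ∑ i, (inner ℝ (as (b i)) (as (b i)) - inner ℝ (a (b i)) (a (b i))) = 0 := by
    rw [Finset.sum_sub_distrib, ← h1, ← h2, LinearMap.trace_mul_comm, sub_self]
  have h4 : ∀ i, inner ℝ (as (b i)) (as (b i)) - inner ℝ (a (b i)) (a (b i)) = 0 := by
    intro i
    have := (Finset.sum_eq_zero_iff_of_nonneg (fun j _ => sub_nonneg.mpr (hle (b j)))).mp h3
    exact this i (Finset.mem_univ i)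
  have h5 : ∀ i v, inner ℝ (as (b i)) (as v) - inner ℝ (a (b i)) (a v) = 0 := by
    intro i v
    by_contra hne
    set B := inner ℝ (as (b i)) (as v) - inner ℝ (a (b i)) (a v) with hB
    set D := inner ℝ (as v) (as v) - inner ℝ (a v) (a v) with hD
    have h6 : ∀ t : ℝ, 0 ≤ D + 2 * t * B := by
      intro t
      have h7 := sub_nonneg.mpr (hle (v + t • b i))
      simp only [map_add, map_smul, inner_add_left, inner_add_right, real_inner_smul_left,
        real_inner_smul_right] at h7
      rw [real_inner_comm (as (b i)) (as v), real_inner_comm (a (b i)) (a v)] at h7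
      have h8 := h4 i
      have h9 : t * t * (inner ℝ (as (b i)) (as (b i)) - inner ℝ (a (b i)) (a (b i))) = 0 := by
        rw [h8, mul_zero]
      nlinarith
    have h7 := h6 (-(D + 1) / (2 * B))
    have h8 : D + 2 * (-(D + 1) / (2 * B)) * B = -1 := by
      field_simp
      ring
    rw [h8] at h7
    linarith
  have h6 : inner ℝ (as u) (as u) - inner ℝ (a u) (a u) = 0 := by
    have h7 : ∀ v : W, inner ℝ (as u) (as v) - inner ℝ (a u) (a v) = 0 := by
      intro v
      conv_lhs => rw [← b.sum_repr u]
      simp only [map_sum, map_smul, sum_inner, real_inner_smul_left]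
      rw [← Finset.sum_sub_distrib]
      apply Finset.sum_eq_zero
      intro i _
      rw [← mul_sub, h5, mul_zero]
    exact h7 u
  linarith

variable {V : Type*} [AddCommGroup V] [Module ℝ V] [FiniteDimensional ℝ V]

/-- The same for a positive definite form. -/
lemma hypo (g : V →ₗ[ℝ] V →ₗ[ℝ] ℝ) (hs : ∀ u v, g u v = g v u)
    (hp : ∀ u, u ≠ 0 → 0 < g u u) (a as : V →ₗ[ℝ] V)
    (had : ∀ u v : V, g (as u) v = g u (a v))
    (hle : ∀ u, g (a u) (a u) ≤ g (as u) (as u)) (u : V) :
    g (a u) (a u) = g (as u) (as u) := by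
  let c : InnerProductSpace.Core ℝ V :=
    { inner := fun u v => g u v
      conj_inner_symm := fun u v => hs v u
      re_inner_nonneg := fun u => by
        show 0 ≤ g u u
        by_cases hu : u = 0
        · rw [hu, map_zero]
        · exact (hp u hu).le
      add_left := fun u v w => by
        show g (u + v) w = g u w + g v w
        rw [map_add, LinearMap.add_apply]
      smul_left := fun u v r => by
        show g (r • u) v = r * g u v
        rw [map_smul, LinearMap.smul_apply, smul_eq_mul]
      definite := fun u hu => by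
        by_contra hne
        have := hp u hne
        have h2 : g u u = 0 := hu
        rw [h2] at this
        exact lt_irrefl _ this }
  let _ : NormedAddCommGroup V := c.toNormedAddCommGroup
  let _ : InnerProductSpace ℝ V := InnerProductSpace.ofCore c.toCore
  exact hypo_ips a as had hle u

/-- Existence of adjoints for a positive definite form. -/
lemma exists_adj (g : V →ₗ[ℝ] V →ₗ[ℝ] ℝ) (hp : ∀ u, u ≠ 0 → 0 < g u u) (a : V →ₗ[ℝ] V) :
    ∃ as : V →ₗ[ℝ] V, ∀ u v : V, g (as u) v = g u (a v) := by
  have hinj : Function.Injective g := by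
    rw [injective_iff_map_eq_zero]
    intro x hx
    by_contra hne
    have := hp x hne
    rw [hx, LinearMap.zero_apply] at this
    exact lt_irrefl _ this
  let e : V ≃ₗ[ℝ] (Dual ℝ V) :=
    LinearMap.linearEquivOfInjective g hinj (Subspace.dual_finrank_eq).symm
  refine ⟨e.symm.toLinearMap ∘ₗ (Module.Dual.transpose a) ∘ₗ g, ?_⟩
  intro u v
  have h1 : ∀ w, g (e.symm w) = w := fun w => e.apply_symm_apply w
  show g (e.symm (Module.Dual.transpose a (g u))) v = g u (a v)
  rw [h1]
  rfl

theorem commute_J (J : V →ₗ[ℝ] V) (Ω : V →ₗ[ℝ] V →ₗ[ℝ] ℝ) (hJ : ∀ x, J (J x) = -x)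
    (halt : ∀ x, Ω x x = 0) (ht : ∀ x, x ≠ 0 → 0 < Ω x (J x)) (A B : V →ₗ[ℝ] V)
    (hA : ∀ u v, Ω (A u) v = -Ω u (A v)) (hB : ∀ u v, Ω (B u) v = -Ω u (B v))
    (hAB : ∀ u, A (B u) = B (A u)) (hint : ∀ u, B (J u) = A u + J (B u) + J (A (J u))) (u : V) :
    A (J u) = J (A u) := by
  have sk : ∀ x y, Ω x y = -Ω y x := skew_of_alt halt
  let g : V →ₗ[ℝ] V →ₗ[ℝ] ℝ :=
    LinearMap.mk₂ ℝ (fun u v => (Ω u (J v) + Ω v (J u)) / 2)
      (by intro a b c; simp only [map_add, LinearMap.add_apply]; ring)
      (by intro a b c; simp only [map_smul, LinearMap.smul_apply, smul_eq_mul]; ring)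
      (by intro a b c; simp only [map_add, LinearMap.add_apply]; ring)
      (by intro a b c; simp only [map_smul, LinearMap.smul_apply, smul_eq_mul]; ring)
  have hg : ∀ u v, g u v = (Ω u (J v) + Ω v (J u)) / 2 := fun u v => rfl
  have hgu : ∀ u, g u u = Ω u (J u) := by intro u; rw [hg]; ring
  have hs : ∀ u v, g u v = g v u := by intro u v; rw [hg, hg]; ring
  have hp : ∀ u, u ≠ 0 → 0 < g u u := by intro u hu; rw [hgu]; exact ht u hu
  let a : V →ₗ[ℝ] V := A - B ∘ₗ J
  have ha : ∀ u, a u = A u - B (J u) := fun u => rfl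
  have haJ : ∀ u, a (J u) = A (J u) + B u := by
    intro u
    rw [ha, hJ, map_neg, sub_neg_eq_add]
  have hJa : ∀ u, J (a u) = A (J u) + B u := by
    intro u
    rw [ha, hint, map_sub, map_add, map_add, hJ, hJ]
    abel
  obtain ⟨as, has⟩ := exists_adj g hp a
  -- the two identities for the adjoint of `A + i B`
  have key : ∀ u v, Ω (-(A u + B (J u))) (J v) - Ω (B u - A (J u)) v = 2 * g u (a v) := by
    intro u v
    have h1 : Ω u (J (a v)) = Ω u (A (J v)) + Ω u (B v) := by rw [hJa, map_add]
    have h2 : Ω (a v) (J u) = -(Ω (J u) (A v) - Ω (J u) (B (J v))) := by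
      rw [sk, ha, map_sub]
    rw [hg, h1, h2]
    simp only [map_neg, map_add, map_sub, LinearMap.neg_apply, LinearMap.add_apply,
      LinearMap.sub_apply, hA, hB]
    ring
  have key2 : ∀ u v, Ω (-(A u + B (J u))) v + Ω (B u - A (J u)) (J v) =
      -(2 * g u (a (J v))) := by
    intro u v
    have h3 := key u (J v)
    rw [hJ, map_neg] at h3
    linarith
  -- norm identity
  have hAB0 : ∀ w, Ω (A w) (B w) = 0 := by
    intro w
    have h1 : Ω (A w) (B w) = -Ω w (A (B w)) := hA _ _
    have h2 : Ω (B w) (A w) = -Ω w (B (A w)) := hB _ _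
    have h3 := sk (A w) (B w)
    rw [hAB] at h1
    linarith
  have hnorm : ∀ u, Ω (-(A u + B (J u))) (B u - A (J u)) = g (a u) (a u) := by
    intro u
    rw [hgu, hJa, ha]
    simp only [map_neg, map_add, map_sub, LinearMap.neg_apply, LinearMap.add_apply,
      LinearMap.sub_apply]
    have h1 := hAB0 u
    have h2 := hAB0 (J u)
    have h3 := sk (B (J u)) (A (J u))
    linarith
  have hgas : ∀ u v, 2 * g (as u) v = Ω (as u) (J v) - Ω (J (as u)) v := by
    intro u v
    rw [hg, sk v (J (as u))]
    ring
  have hR : ∀ u v, Ω (-(A u + B (J u)) - as u) (J v) =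
      Ω (B u - A (J u) - J (as u)) v := by
    intro u v
    have h1 := key u v
    rw [← has, hgas] at h1
    rw [map_sub, LinearMap.sub_apply, map_sub Ω (B u - A (J u)) (J (as u)), LinearMap.sub_apply]
    linarith
  have hI : ∀ u v, Ω (-(A u + B (J u)) - as u) v =
      -Ω (B u - A (J u) - J (as u)) (J v) := by
    intro u v
    have h1 := hR u (J v)
    rw [hJ, map_neg] at h1
    linarith
  have hmain : ∀ u, g (a u) (a u) = g (as u) (as u) -
      g (B u - A (J u) - J (as u)) (B u - A (J u) - J (as u)) := by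
    intro u
    rw [← hnorm u, hgu, hgu]
    set y := -(A u + B (J u)) with hy
    set y' := B u - A (J u) with hy'
    set w := as u with hw
    have h1 := hR u w
    have h2 := hI u (y' - J w)
    rw [← hy, ← hy', ← hw] at h1 h2
    have h3 := sk (y' - J w) w
    have h4 : Ω y y' = Ω (y - w) (y' - J w) + Ω (y - w) (J w) + Ω w (y' - J w) + Ω w (J w) := by
      simp only [map_sub, LinearMap.sub_apply]
      ring
    rw [h4]
    linarith
  have heq := hypo g hs hp a as has (by
    intro u
    rw [hmain u]
    have : 0 ≤ g (B u - A (J u) - J (as u)) (B u - A (J u) - J (as u)) := by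
      by_cases h0 : B u - A (J u) - J (as u) = 0
      · rw [h0, map_zero]
      · exact (hp _ h0).le
    linarith) u
  have hz : B u - A (J u) - J (as u) = 0 := by
    by_contra hne
    have h1 := hp _ hne
    have h2 := hmain u
    linarith
  have hz2 : -(A u + B (J u)) - as u = 0 := by
    by_contra hne
    have h1 := ht _ hne
    have h2 := hR u (-(A u + B (J u)) - as u)
    rw [hz, map_zero, LinearMap.zero_apply] at h2
    rw [h2] at h1
    exact lt_irrefl _ h1
  have h1 : as u = -(A u + B (J u)) := (sub_eq_zero.mp hz2).symm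
  rw [h1, map_neg, map_add, hint, map_add, map_add, hJ, hJ] at hz
  have h2 : (2 : ℝ) • (J (A u) - A (J u)) = 0 := by
    rw [two_smul, ← hz]
    abel
  have h3 := (smul_eq_zero.mp h2).resolve_left (by norm_num)
  exact (sub_eq_zero.mp h3).symm

end Pool.Agent.STK
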