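import Pool.Agent.STK.Comm

set_option autoImplicit false

/-!
# The derived algebra is abelian
-/

open Module

namespace Pool.Agent.STK

universe u

/-- A skew operator with `trace (C C) = 0` is zero. -/
lemma skew_zero_ips {W : Type*} [NormedAddCommGroup W] [InnerProductSpace ℝ W]
    [FiniteDimensional ℝ W] (C : W →ₗ[ℝ] W) (hC : ∀ u v : W, inner ℝ (C u) v = -inner ℝ u (C v))
    (htr : LinearMap.trace ℝ W (C * C) = 0) : C = 0 := by
  let b := stdOrthonormalBasis ℝ W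
  have h1 : LinearMap.trace ℝ W (C * C) = ∑ i, -inner ℝ (C (b i)) (C (b i)) := by
    rw [LinearMap.trace_eq_sum_inner (C * C) b]
    apply Finset.sum_congr rfl
    intro i _
    rw [Module.End.mul_apply, hC, neg_neg]
  rw [h1, Finset.sum_neg_distrib, neg_eq_zero] at htr
  have h2 := (Finset.sum_eq_zero_iff_of_nonneg
    (fun j _ => real_inner_self_nonneg (x := C (b j)))).mp htr
  apply b.toBasis.ext
  intro i
  rw [LinearMap.zero_apply, b.coe_toBasis]
  exact inner_self_eq_zero.mp (h2 i (Finset.mem_univ i))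

lemma skew_zero {V : Type*} [AddCommGroup V] [Module ℝ V] [FiniteDimensional ℝ V]
    (g : V →ₗ[ℝ] V →ₗ[ℝ] ℝ) (hs : ∀ u v, g u v = g v u)
    (hp : ∀ u, u ≠ 0 → 0 < g u u) (C : V →ₗ[ℝ] V)
    (hC : ∀ u v : V, g (C u) v = -g u (C v))
    (htr : LinearMap.trace ℝ V (C * C) = 0) : C = 0 := by
  let c : InnerProductSpace.Core ℝ V :=
    { inner := fun u v => g u v
      conj_inner_symm := fun u v => hs v u
      re_inner_nonneg := fun u => by
        show 0 ≤ g u u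
        by_cases hu : u = 0
        · rw [hu, map_zero]
        · exact (hp u hu).le
      add_left := fun u v w => by
        show g (u + v) w = g u w + g v w
        rw [map_add, LinearMap.add_apply]
      smul_left := fun u v r => by
        show g (r • u) v = r * g u v
        rw [map_smul, LinearMap.smul_apply, smul_eq_mul]
      definite := fun u hu => by
        by_contra hne
        have := hp u hne
        have h2 : g u u = 0 := hu
        rw [h2] at this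
        exact lt_irrefl _ this }
  let _ : NormedAddCommGroup V := c.toNormedAddCommGroup
  let _ : InnerProductSpace ℝ V := InnerProductSpace.ofCore c.toCore
  exact skew_zero_ips C hC htr

section Ideal

variable {L : Type*} [LieRing L] [LieAlgebra ℝ L] [FiniteDimensional ℝ L]
  {J : L →ₗ[ℝ] L} {Ω : L →ₗ[ℝ] L →ₗ[ℝ] ℝ}

/-- The symmetric form of a taming form. -/
noncomputable def gf (J : L →ₗ[ℝ] L) (Ω : L →ₗ[ℝ] L →ₗ[ℝ] ℝ) : L →ₗ[ℝ] L →ₗ[ℝ] ℝ :=
  LinearMap.mk₂ ℝ (fun u v => Ω u (J v) + Ω v (J u))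
      (by intro a b c; simp only [map_add, LinearMap.add_apply]; ring)
      (by intro a b c; simp only [map_smul, LinearMap.smul_apply, smul_eq_mul]; ring)
      (by intro a b c; simp only [map_add, LinearMap.add_apply]; ring)
      (by intro a b c; simp only [map_smul, LinearMap.smul_apply, smul_eq_mul]; ring)

lemma gf_apply (u v : L) : gf J Ω u v = Ω u (J v) + Ω v (J u) := rfl

lemma gf_symm (u v : L) : gf J Ω u v = gf J Ω v u := by
  rw [gf_apply, gf_apply]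
  ring

lemma gf_pos (T : Tame J Ω) (u : L) (hu : u ≠ 0) : 0 < gf J Ω u u := by
  rw [gf_apply]
  have := T.tame u hu
  linarith

variable {h : Submodule ℝ L}

/-- The action on an invariant subspace. -/
noncomputable def act (h : Submodule ℝ L) (hid : ∀ x : L, ∀ u ∈ h, ⁅x, u⁆ ∈ h) (x : L) :
    End ℝ h := (LieAlgebra.ad ℝ L x).restrict (fun u hu => hid x u hu)

lemma act_apply (hid : ∀ x : L, ∀ u ∈ h, ⁅x, u⁆ ∈ h) (x : L) (u : h) :
    ((act h hid x u : h) : L) = ⁅x, (u : L)⁆ := rfl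

lemma skew_on (T : Tame J Ω) (hab : ∀ u ∈ h, ∀ v ∈ h, ⁅u, v⁆ = 0) (x u v : L) (hu : u ∈ h)
    (hv : v ∈ h) : Ω ⁅x, u⁆ v = -Ω u ⁅x, v⁆ := by
  have h1 := T.closed x u v
  rw [hab u hu v hv, map_zero, LinearMap.zero_apply, add_zero] at h1
  have h2 : Ω ⁅v, x⁆ u = Ω u ⁅x, v⁆ := by
    rw [skew_of_alt T.alt, ← lie_skew x v, map_neg]
  linarith

/-- Commutation of the action with `J` on an abelian `J`-invariant ideal. -/
lemma comm_on (T : Tame J Ω) (hJ : ∀ u ∈ h, J u ∈ h) (hid : ∀ x : L, ∀ u ∈ h, ⁅x, u⁆ ∈ h)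
    (hab : ∀ u ∈ h, ∀ v ∈ h, ⁅u, v⁆ = 0) (x : L) (hx : ∀ u ∈ h, ⁅⁅x, J x⁆, u⁆ = 0)
    (u : L) (hu : u ∈ h) : ⁅x, J u⁆ = J ⁅x, u⁆ := by
  have h1 := commute_J (V := h) (J.restrict hJ) (Ω.compl₁₂ h.subtype h.subtype)
    (fun v => Subtype.ext (T.jj v)) (fun v => T.alt v)
    (fun v hv => T.tame v (fun h0 => hv (Subtype.ext h0))) (act h hid x) (act h hid (J x))
    (fun v w => skew_on T hab x v w v.2 w.2) (fun v w => skew_on T hab (J x) v w v.2 w.2)
    (fun v => Subtype.ext (by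
      show ⁅x, ⁅J x, (v : L)⁆⁆ = ⁅J x, ⁅x, (v : L)⁆⁆
      rw [leibniz_lie x (J x) (v : L), hx v v.2, zero_add]))
    (fun v => Subtype.ext (by
      show ⁅J x, J (v : L)⁆ = ⁅x, (v : L)⁆ + J ⁅J x, (v : L)⁆ + J ⁅x, J (v : L)⁆
      exact T.int x v)) ⟨u, hu⟩
  exact congrArg Subtype.val h1

lemma gskew_on (T : Tame J Ω) (hJ : ∀ u ∈ h, J u ∈ h) (hab : ∀ u ∈ h, ∀ v ∈ h, ⁅u, v⁆ = 0)
    (x : L) (hc : ∀ u ∈ h, ⁅x, J u⁆ = J ⁅x, u⁆) (u v : L) (hu : u ∈ h) (hv : v ∈ h) :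
    gf J Ω ⁅x, u⁆ v = -gf J Ω u ⁅x, v⁆ := by
  rw [gf_apply, gf_apply, ← hc u hu, ← hc v hv, skew_on T hab x u (J v) hu (hJ v hv)]
  have h1 := skew_on T hab x v (J u) hv (hJ u hu)
  linarith

/-- Vanishing of an element of the action with zero trace square. -/
lemma act_zero (T : Tame J Ω) (hJ : ∀ u ∈ h, J u ∈ h) (hid : ∀ x : L, ∀ u ∈ h, ⁅x, u⁆ ∈ h)
    (hab : ∀ u ∈ h, ∀ v ∈ h, ⁅u, v⁆ = 0)
    (x : L) (hc : ∀ u ∈ h, ⁅x, J u⁆ = J ⁅x, u⁆)
    (htr : LinearMap.trace ℝ h (act h hid x * act h hid x) = 0) : act h hid x = 0 := by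
  apply skew_zero ((gf J Ω).compl₁₂ h.subtype h.subtype) (fun u v => gf_symm _ _)
    (fun u hu => gf_pos T _ (fun h0 => hu (Subtype.ext h0))) _ ?_ htr
  intro u v
  exact gskew_on T hJ hab x hc u v u.2 v.2

end Ideal

lemma derived_lt (L : Type*) [LieRing L] [LieAlgebra ℝ L] [LieAlgebra.IsSolvable L]
    [Nontrivial L] : ⁅(⊤ : LieIdeal ℝ L), (⊤ : LieIdeal ℝ L)⁆ < ⊤ := by
  have := LieAlgebra.derivedSeries_lt_top_of_solvable ℝ L
  simpa using this

lemma mem_derived {L : Type*} [LieRing L] [LieAlgebra ℝ L] (z : L) :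
    z ∈ (⁅(⊤ : LieIdeal ℝ L), (⊤ : LieIdeal ℝ L)⁆ : LieIdeal ℝ L) ↔
      z ∈ Submodule.span ℝ {z : L | ∃ a b : L, ⁅a, b⁆ = z} := by
  rw [← LieSubmodule.mem_toSubmodule, LieSubmodule.lieIdeal_oper_eq_linear_span']
  simp

end Pool.Agent.STK
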