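import Pool.Agent.STK.Mat

set_option autoImplicit false

/-!
# Affine actions on irreducible modules

A cocycle with values in an irreducible module, vanishing on the kernel of the action, is a
coboundary.
-/

open Module

namespace Pool.Agent.STK

section

variable {L W : Type*} [LieRing L] [LieAlgebra ℝ L] [FiniteDimensional ℝ L]
  [AddCommGroup W] [Module ℝ W] [FiniteDimensional ℝ W] [LieRingModule L W] [LieModule ℝ L W]

/-- The radical of the trace form. -/
noncomputable def radW (L W : Type*) [LieRing L] [LieAlgebra ℝ L]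
    [AddCommGroup W] [Module ℝ W] [LieRingModule L W] [LieModule ℝ L W] : LieIdeal ℝ L where
  carrier := {x | ∀ y, LieModule.traceForm ℝ L W x y = 0}
  add_mem' := by
    intro a b ha hb y
    rw [map_add, LinearMap.add_apply, ha y, hb y, add_zero]
  zero_mem' := by
    intro y
    rw [map_zero, LinearMap.zero_apply]
  smul_mem' := by
    intro t a ha y
    rw [map_smul, LinearMap.smul_apply, ha y, smul_zero]
  lie_mem := by
    intro x m hm y
    have h1 : LieModule.traceForm ℝ L W ⁅m, x⁆ y = 0 := by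
      rw [LieModule.traceForm_apply_lie_apply]
      exact hm _
    rw [← lie_skew x m, map_neg, LinearMap.neg_apply, h1, neg_zero]

lemma mem_radW (x : L) : x ∈ radW L W ↔ ∀ y, LieModule.traceForm ℝ L W x y = 0 := Iff.rfl

lemma kill_all (hirr : ∀ N : LieSubmodule ℝ L W, N ≠ ⊥ → N = ⊤) (I : LieIdeal ℝ L) (w0 : W)
    (hw0 : w0 ≠ 0) (h0 : ∀ s ∈ I, ⁅s, w0⁆ = 0) : ∀ s ∈ I, ∀ w : W, ⁅s, w⁆ = 0 := by
  let N : LieSubmodule ℝ L W :=
    { carrier := {w | ∀ s ∈ I, ⁅s, w⁆ = 0}
      add_mem' := by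
        intro a b ha hb s hs
        rw [lie_add, ha s hs, hb s hs, add_zero]
      zero_mem' := by
        intro s hs
        rw [lie_zero]
      smul_mem' := by
        intro t a ha s hs
        rw [lie_smul, ha s hs, smul_zero]
      lie_mem := by
        intro x m hm s hs
        rw [leibniz_lie s x m, hm s hs, lie_zero, add_zero]
        apply hm
        rw [← lie_skew]
        exact I.neg_mem (I.lie_mem hs) }
  have hN : N ≠ ⊥ := by
    intro hb
    have h1 : w0 ∈ N := h0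
    rw [hb, LieSubmodule.mem_bot] at h1
    exact hw0 h1
  have hT := hirr N hN
  intro s hs w
  have h1 : w ∈ N := by
    rw [hT]
    exact LieSubmodule.mem_top w
  exact h1 s hs

lemma ideal_span (K M : LieIdeal ℝ L) (P : L → Prop) (hb : ∀ x ∈ K, ∀ y ∈ M, P ⁅x, y⁆)
    (h0 : P 0) (ha : ∀ x y, x ∈ (⁅K, M⁆ : LieIdeal ℝ L) → y ∈ (⁅K, M⁆ : LieIdeal ℝ L) →
      P x → P y → P (x + y)) (hs : ∀ (t : ℝ) (x : L), P x → P (t • x)) :
    ∀ z ∈ (⁅K, M⁆ : LieIdeal ℝ L), P z := by
  intro z hz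
  have hmem : ∀ z, z ∈ (⁅K, M⁆ : LieIdeal ℝ L) ↔
      z ∈ Submodule.span ℝ {z : L | ∃ x ∈ K, ∃ y ∈ M, ⁅x, y⁆ = z} := by
    intro z
    rw [← LieSubmodule.mem_toSubmodule, LieSubmodule.lieIdeal_oper_eq_linear_span']
  rw [hmem] at hz
  have h1 : z ∈ (⁅K, M⁆ : LieIdeal ℝ L) ∧ P z := by
    induction hz using Submodule.span_induction with
    | mem z hz =>
      obtain ⟨x, hx, y, hy, rfl⟩ := hz
      exact ⟨LieSubmodule.lie_mem_lie hx hy, hb x hx y hy⟩
    | zero => exact ⟨LieSubmodule.zero_mem _, h0⟩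
    | add z w _ _ h1 h2 =>
      exact ⟨add_mem h1.1 h2.1, ha _ _ h1.1 h2.1 h1.2 h2.2⟩
    | smul t z _ h1 =>
      exact ⟨(⁅K, M⁆ : LieIdeal ℝ L).toSubmodule.smul_mem t h1.1, hs _ _ h1.2⟩
  exact h1.2

/-- The derived ideal of the radical of the trace form acts trivially on an irreducible module. -/
lemma radW_comm [Nontrivial W] (hirr : ∀ N : LieSubmodule ℝ L W, N ≠ ⊥ → N = ⊤) :
    ∀ s ∈ (⁅radW L W, radW L W⁆ : LieIdeal ℝ L), ∀ w : W, ⁅s, w⁆ = 0 := by
  have h1 : LieModule.traceForm ℝ (radW L W) W = 0 := by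
    ext ⟨x, hx⟩ ⟨y, hy⟩
    exact hx y
  have h2 := LieModule.isNilpotent_derivedSeries_of_traceForm_eq_zero h1
  have h3 := LieModule.nontrivial_max_triv_of_isNilpotent ℝ
    (LieAlgebra.derivedSeries ℝ (radW L W) 1) W
  obtain ⟨⟨w0, hw0⟩, hne⟩ := exists_ne (0 : LieModule.maxTrivSubmodule ℝ
    (LieAlgebra.derivedSeries ℝ (radW L W) 1) W)
  have hne' : w0 ≠ 0 := fun h0 => hne (Subtype.ext h0)
  rw [LieModule.mem_maxTrivSubmodule] at hw0
  apply kill_all hirr _ w0 hne'
  apply ideal_span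
  · intro x hx y hy
    have h4 : ⁅(⟨x, hx⟩ : radW L W), (⟨y, hy⟩ : radW L W)⁆ ∈
        LieAlgebra.derivedSeries ℝ (radW L W) 1 := by
      rw [LieAlgebra.derivedSeries_def, LieAlgebra.derivedSeriesOfIdeal_succ,
        LieAlgebra.derivedSeriesOfIdeal_zero]
      exact LieSubmodule.lie_mem_lie (LieSubmodule.mem_top _) (LieSubmodule.mem_top _)
    exact hw0 ⟨_, h4⟩
  · exact zero_lie w0
  · intro x y _ _ hx hy
    rw [add_lie, hx, hy, add_zero]
  · intro t x hx
    rw [smul_lie, hx, smul_zero]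

/-- The radical of the trace form acts centrally on an irreducible module. -/
lemma radW_central [Nontrivial W] (hirr : ∀ N : LieSubmodule ℝ L W, N ≠ ⊥ → N = ⊤) :
    ∀ x : L, ∀ k ∈ radW L W, ∀ w : W, ⁅⁅x, k⁆, w⁆ = 0 := by
  have hKK := radW_comm hirr
  have hcomm : ∀ s ∈ radW L W, ∀ t ∈ radW L W,
      Commute (LieModule.toEnd ℝ L W s) (LieModule.toEnd ℝ L W t) := by
    intro s hs t ht
    apply LinearMap.ext
    intro w
    show ⁅s, ⁅t, w⁆⁆ = ⁅t, ⁅s, w⁆⁆
    rw [leibniz_lie s t w, hKK _ (LieSubmodule.lie_mem_lie hs ht), zero_add]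
  have hle : ∀ s ∈ (⁅(⊤ : LieIdeal ℝ L), radW L W⁆ : LieIdeal ℝ L), s ∈ radW L W :=
    fun s hs => LieSubmodule.lie_le_right _ _ hs
  have hnil : ∀ s ∈ (⁅(⊤ : LieIdeal ℝ L), radW L W⁆ : LieIdeal ℝ L),
      IsNilpotent (LieModule.toEnd ℝ L W s) := by
    apply ideal_span
    · intro x _ k hk
      apply isNilpotent_of_trace
      intro t A hA
      set X := LieModule.toEnd ℝ L W x with hX
      set Y := LieModule.toEnd ℝ L W k with hY
      set Z := LieModule.toEnd ℝ L W ⁅x, k⁆ with hZ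
      have e1 : Z = X * Y - Y * X := by
        apply LinearMap.ext
        intro w
        exact lie_lie x k w
      have e2 : Z * Y = Y * Z := hcomm _ ((radW L W).lie_mem hk) _ hk
      have hA' : (1 - t • Z) * A = 1 := mul_eq_one_comm.mp hA
      have e3 : A * Y = Y * A := by
        have h1 : (1 - t • Z) * Y = Y * (1 - t • Z) := by
          rw [sub_mul, mul_sub, one_mul, mul_one, smul_mul_assoc, mul_smul_comm, e2]
        calc A * Y = A * (Y * ((1 - t • Z) * A)) := by rw [hA', mul_one]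
          _ = A * ((1 - t • Z) * Y) * A := by rw [h1, mul_assoc, mul_assoc]
          _ = Y * A := by rw [← mul_assoc, hA, one_mul]
      rw [e1, mul_sub, map_sub]
      have e4 : LinearMap.trace ℝ W (A * (X * Y)) = LinearMap.trace ℝ W (Y * A * X) := by
        rw [← mul_assoc, LinearMap.trace_mul_comm, ← mul_assoc]
      have e5 : LinearMap.trace ℝ W (A * (Y * X)) = LinearMap.trace ℝ W (A * Y * X) := by
        rw [← mul_assoc]
      rw [e4, e5, e3, sub_self]
    · rw [map_zero]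
      exact IsNilpotent.zero
    · intro x y hx hy h1 h2
      rw [map_add]
      exact (hcomm x (hle x hx) y (hle y hy)).isNilpotent_add h1 h2
    · intro t x h1
      rw [map_smul]
      exact h1.smul t
  have h1 : LieModule.IsNilpotent (⁅(⊤ : LieIdeal ℝ L), radW L W⁆ : LieIdeal ℝ L) W := by
    rw [LieModule.isNilpotent_iff_forall' (R := ℝ)]
    rintro ⟨s, hs⟩
    exact hnil s hs
  have h3 := LieModule.nontrivial_max_triv_of_isNilpotent ℝ
    (⁅(⊤ : LieIdeal ℝ L), radW L W⁆ : LieIdeal ℝ L) W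
  obtain ⟨⟨w0, hw0⟩, hne⟩ := exists_ne (0 : LieModule.maxTrivSubmodule ℝ
    (⁅(⊤ : LieIdeal ℝ L), radW L W⁆ : LieIdeal ℝ L) W)
  have hne' : w0 ≠ 0 := fun h0 => hne (Subtype.ext h0)
  rw [LieModule.mem_maxTrivSubmodule] at hw0
  have h4 := kill_all hirr _ w0 hne' (fun s hs => hw0 ⟨s, hs⟩)
  intro x k hk w
  exact h4 _ (LieSubmodule.lie_mem_lie (LieSubmodule.mem_top x) hk) w

/-- Invariance of the Casimir tensor of an orthogonal basis of the trace form. -/
lemma casimir_inv {n : ℕ} (b : Basis (Fin n) ℝ L)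
    (hb : ∀ i j, i ≠ j → LieModule.traceForm ℝ L W (b i) (b j) = 0)
    {X : Type*} [AddCommGroup X] [Module ℝ X] (E : L →ₗ[ℝ] L →ₗ[ℝ] X)
    (hE1 : ∀ k ∈ radW L W, ∀ z, E k z = 0) (hE2 : ∀ k ∈ radW L W, ∀ z, E z k = 0) (x : L) :
    ∑ i, (LieModule.traceForm ℝ L W (b i) (b i))⁻¹ • (E ⁅x, b i⁆ (b i) + E (b i) ⁅x, b i⁆) = 0 := by
  set β := LieModule.traceForm ℝ L W with hβ
  set c : Fin n → ℝ := fun i => (β (b i) (b i))⁻¹ with hc
  have hrepr : ∀ y j, β y (b j) = b.repr y j * β (b j) (b j) := by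
    intro y j
    conv_lhs => rw [← b.sum_repr y]
    rw [map_sum, LinearMap.sum_apply, Finset.sum_eq_single j]
    · rw [map_smul, LinearMap.smul_apply, smul_eq_mul]
    · intro i _ hij
      rw [map_smul, LinearMap.smul_apply, hb i j hij, smul_zero]
    · intro h
      exact absurd (Finset.mem_univ j) h
  have hdec : ∀ y, y - ∑ j, (c j * β y (b j)) • b j ∈ radW L W := by
    intro y
    rw [mem_radW]
    have h1 : β (y - ∑ j, (c j * β y (b j)) • b j) = 0 := by
      apply b.ext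
      intro i
      rw [LinearMap.zero_apply, map_sub, LinearMap.sub_apply, map_sum, LinearMap.sum_apply,
        Finset.sum_eq_single i]
      · rw [map_smul, LinearMap.smul_apply, smul_eq_mul]
        by_cases hd : β (b i) (b i) = 0
        · rw [hrepr y i, hd]
          ring
        · show β y (b i) - (β (b i) (b i))⁻¹ * β y (b i) * β (b i) (b i) = 0
          field_simp
          ring
      · intro j _ hij
        rw [map_smul, LinearMap.smul_apply, hb j i hij, smul_zero]
      · intro h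
        exact absurd (Finset.mem_univ i) h
    intro z
    rw [← hβ, h1, LinearMap.zero_apply]
  have hx1 : ∀ y z, E y z = ∑ j, (c j * β y (b j)) • E (b j) z := by
    intro y z
    have h1 := hE1 _ (hdec y) z
    rw [map_sub, LinearMap.sub_apply, map_sum, LinearMap.sum_apply, sub_eq_zero] at h1
    rw [h1]
    apply Finset.sum_congr rfl
    intro j _
    rw [map_smul, LinearMap.smul_apply]
  have hx2 : ∀ y z, E z y = ∑ j, (c j * β y (b j)) • E z (b j) := by
    intro y z
    have h1 := hE2 _ (hdec y) z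
    rw [map_sub, map_sum, sub_eq_zero] at h1
    rw [h1]
    apply Finset.sum_congr rfl
    intro j _
    rw [map_smul]
  have hanti : ∀ i j, β ⁅x, b i⁆ (b j) = -β ⁅x, b j⁆ (b i) := by
    intro i j
    have h1 : β ⁅b i, x⁆ (b j) = β (b i) ⁅x, b j⁆ := LieModule.traceForm_apply_lie_apply ℝ L W _ _ _
    rw [← lie_skew x (b i), map_neg, LinearMap.neg_apply, h1]
    rw [hβ, LieModule.traceForm_comm]
  have hS : ∑ i, c i • (E ⁅x, b i⁆ (b i) + E (b i) ⁅x, b i⁆) =
      ∑ i, ∑ j, (c i * c j * β ⁅x, b i⁆ (b j)) • (E (b j) (b i) + E (b i) (b j)) := by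
    apply Finset.sum_congr rfl
    intro i _
    rw [hx1 ⁅x, b i⁆ (b i), hx2 ⁅x, b i⁆ (b i), ← Finset.sum_add_distrib, Finset.smul_sum]
    apply Finset.sum_congr rfl
    intro j _
    rw [← smul_add, smul_smul, mul_assoc]
  have hS2 : ∑ i, ∑ j, (c i * c j * β ⁅x, b i⁆ (b j)) • (E (b j) (b i) + E (b i) (b j)) =
      -∑ i, ∑ j, (c i * c j * β ⁅x, b i⁆ (b j)) • (E (b j) (b i) + E (b i) (b j)) := by
    conv_lhs => rw [Finset.sum_comm]
    rw [← Finset.sum_neg_distrib]
    apply Finset.sum_congr rfl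
    intro i _
    rw [← Finset.sum_neg_distrib]
    apply Finset.sum_congr rfl
    intro j _
    rw [hanti j i, ← neg_smul, add_comm (E (b i) (b j))]
    congr 1
    ring
  show ∑ i, c i • (E ⁅x, b i⁆ (b i) + E (b i) ⁅x, b i⁆) = 0
  rw [hS]
  have h2 : (2 : ℝ) • ∑ i, ∑ j, (c i * c j * β ⁅x, b i⁆ (b j)) •
      (E (b j) (b i) + E (b i) (b j)) = 0 := by
    rw [two_smul]
    nth_rewrite 1 [hS2]
    exact neg_add_cancel _
  exact (smul_eq_zero.mp h2).resolve_left (by norm_num)

end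

end Pool.Agent.STK
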