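import Pool.Agent.STK.Deriv

set_option autoImplicit false

/-!
# The derived algebra of a solvable unimodular Hermitian-symplectic Lie algebra is abelian
-/

open Module

namespace Pool.Agent.STK

universe u

section Step

variable {L : Type*} [LieRing L] [LieAlgebra ℝ L] [FiniteDimensional ℝ L]
  {J : L →ₗ[ℝ] L} {Ω : L →ₗ[ℝ] L →ₗ[ℝ] ℝ}

lemma act_lie {h : Submodule ℝ L} (hid : ∀ x : L, ∀ u ∈ h, ⁅x, u⁆ ∈ h) (x y : L) :
    act h hid ⁅x, y⁆ = act h hid x * act h hid y - act h hid y * act h hid x := by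
  apply LinearMap.ext
  intro u
  apply Subtype.ext
  show ⁅⁅x, y⁆, (u : L)⁆ = ⁅x, ⁅y, (u : L)⁆⁆ - ⁅y, ⁅x, (u : L)⁆⁆
  exact lie_lie x y (u : L)

lemma act_add {h : Submodule ℝ L} (hid : ∀ x : L, ∀ u ∈ h, ⁅x, u⁆ ∈ h) (x y : L) :
    act h hid (x + y) = act h hid x + act h hid y := by
  apply LinearMap.ext
  intro u
  apply Subtype.ext
  show ⁅x + y, (u : L)⁆ = ⁅x, (u : L)⁆ + ⁅y, (u : L)⁆
  exact add_lie x y (u : L)

lemma act_smul {h : Submodule ℝ L} (hid : ∀ x : L, ∀ u ∈ h, ⁅x, u⁆ ∈ h) (t : ℝ) (x : L) :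
    act h hid (t • x) = t • act h hid x := by
  apply LinearMap.ext
  intro u
  apply Subtype.ext
  show ⁅t • x, (u : L)⁆ = t • ⁅x, (u : L)⁆
  exact smul_lie t x (u : L)

/-- The induction step: if the derived algebra of `D = [L, L]` is abelian (and `J`-invariant)
then `D` is abelian. -/
theorem step (T : Tame J Ω) (D : Submodule ℝ L)
    (hD : D = Submodule.span ℝ {z : L | ∃ a b : L, ⁅a, b⁆ = z})
    (hJD : ∀ x ∈ D, J x ∈ D)
    (hIH : ∀ x ∈ D, ∀ y ∈ D, ∀ z ∈ D, ∀ w ∈ D, ⁅⁅x, y⁆, ⁅z, w⁆⁆ = 0)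
    (hJ2 : ∀ x ∈ D, ∀ y ∈ D,
      J ⁅x, y⁆ ∈ Submodule.span ℝ {z : L | ∃ a ∈ D, ∃ b ∈ D, ⁅a, b⁆ = z}) :
    ∀ x ∈ D, ∀ y ∈ D, ⁅x, y⁆ = 0 := by
  set h := Submodule.span ℝ {z : L | ∃ a ∈ D, ∃ b ∈ D, ⁅a, b⁆ = z} with hh
  have hbr : ∀ a b : L, ⁅a, b⁆ ∈ D := by
    intro a b
    rw [hD]
    exact Submodule.subset_span ⟨a, b, rfl⟩
  have hhb : ∀ a ∈ D, ∀ b ∈ D, ⁅a, b⁆ ∈ h := fun a ha b hb =>
    Submodule.subset_span ⟨a, ha, b, hb, rfl⟩
  have hJ : ∀ u ∈ h, J u ∈ h := by
    intro u hu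
    rw [hh] at hu
    induction hu using Submodule.span_induction with
    | mem z hz =>
      obtain ⟨a, ha, b, hb, rfl⟩ := hz
      exact hJ2 a ha b hb
    | zero => rw [map_zero]; exact h.zero_mem
    | add z w _ _ h1 h2 => rw [map_add]; exact h.add_mem h1 h2
    | smul t z _ h1 => rw [map_smul]; exact h.smul_mem t h1
  have hid : ∀ x : L, ∀ u ∈ h, ⁅x, u⁆ ∈ h := by
    intro x u hu
    rw [hh] at hu
    induction hu using Submodule.span_induction with
    | mem z hz =>
      obtain ⟨a, ha, b, hb, rfl⟩ := hz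
      rw [leibniz_lie x a b]
      exact h.add_mem (hhb _ (hbr x a) _ hb) (hhb _ ha _ (hbr x b))
    | zero => rw [lie_zero]; exact h.zero_mem
    | add z w _ _ h1 h2 => rw [lie_add]; exact h.add_mem h1 h2
    | smul t z _ h1 => rw [lie_smul]; exact h.smul_mem t h1
  have hab : ∀ u ∈ h, ∀ v ∈ h, ⁅u, v⁆ = 0 := by
    intro u hu v hv
    rw [hh] at hu
    induction hu using Submodule.span_induction with
    | mem z hz =>
      obtain ⟨a, ha, b, hb, rfl⟩ := hz
      rw [hh] at hv
      induction hv using Submodule.span_induction with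
      | mem w hw =>
        obtain ⟨c, hc, d, hd, rfl⟩ := hw
        exact hIH a ha b hb c hc d hd
      | zero => rw [lie_zero]
      | add z w _ _ h1 h2 => rw [lie_add, h1, h2, add_zero]
      | smul t z _ h1 => rw [lie_smul, h1, smul_zero]
    | zero => rw [zero_lie]
    | add z w _ _ h1 h2 => rw [add_lie, h1, h2, add_zero]
    | smul t z _ h1 => rw [smul_lie, h1, smul_zero]
  have hc : ∀ x ∈ D, ∀ u ∈ h, ⁅x, J u⁆ = J ⁅x, u⁆ := by
    intro x hx
    exact comm_on T hJ hid hab x (fun u hu => hab _ (hhb x hx (J x) (hJD x hx)) u hu)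
  have hcomm : ∀ x ∈ D, ∀ w ∈ D,
      act h hid x * act h hid w = act h hid w * act h hid x := by
    intro x hx w hw
    apply LinearMap.ext
    intro u
    apply Subtype.ext
    show ⁅x, ⁅w, (u : L)⁆⁆ = ⁅w, ⁅x, (u : L)⁆⁆
    rw [leibniz_lie x w (u : L), hab _ (hhb x hx w hw) _ u.2, zero_add]
  -- the bracket of anything with `D` acts trivially
  have h1 : ∀ y : L, ∀ x ∈ D, act h hid ⁅y, x⁆ = 0 := by
    intro y x hx
    apply act_zero T hJ hid hab ⁅y, x⁆ (hc _ (hbr y x))
    set C := act h hid ⁅y, x⁆ with hC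
    set X := act h hid x with hX
    set Y := act h hid y with hY
    have e1 : C = Y * X - X * Y := act_lie hid y x
    have e2 : C * X = X * C := hcomm _ (hbr y x) x hx
    have e3 : C * C = C * (Y * X) - C * (X * Y) := by
      rw [← mul_sub, ← e1]
    rw [e3, map_sub]
    have e4 : LinearMap.trace ℝ h (C * (Y * X)) = LinearMap.trace ℝ h (C * (X * Y)) := by
      rw [← mul_assoc, LinearMap.trace_mul_comm, ← mul_assoc, ← mul_assoc, e2]
    rw [e4, sub_self]
  have h2 : ∀ x ∈ D, ∀ w ∈ D, LinearMap.trace ℝ h (act h hid x * act h hid w) = 0 := by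
    intro x hx w hw
    rw [hD] at hw
    induction hw using Submodule.span_induction with
    | mem z hz =>
      obtain ⟨a, b, rfl⟩ := hz
      rw [act_lie hid a b]
      set X := act h hid x with hX
      set A := act h hid a with hA
      set B := act h hid b with hB
      have e1 : A * X - X * A = 0 := by
        rw [hA, hX, ← act_lie hid a x]
        exact h1 a x hx
      have e2 : X * (A * B - B * A) = (X * A) * B - (X * B) * A := by
        rw [mul_sub, mul_assoc, mul_assoc]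
      have e3 : LinearMap.trace ℝ h ((X * B) * A) = LinearMap.trace ℝ h ((A * X) * B) := by
        rw [LinearMap.trace_mul_comm, ← mul_assoc]
      rw [e2, map_sub, e3, sub_eq_zero.mp e1, sub_self]
    | zero =>
      have : act h hid 0 = 0 := by
        apply LinearMap.ext
        intro u
        apply Subtype.ext
        show ⁅(0 : L), (u : L)⁆ = 0
        exact zero_lie _
      rw [this, mul_zero, map_zero]
    | add z w _ _ e1 e2 => rw [act_add, mul_add, map_add, e1, e2, add_zero]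
    | smul t z _ e1 => rw [act_smul, mul_smul_comm, map_smul, e1, smul_zero]
  have h3 : ∀ x ∈ D, ∀ u ∈ h, ⁅x, u⁆ = 0 := by
    intro x hx u hu
    have e1 := act_zero T hJ hid hab x (hc x hx) (h2 x hx x hx)
    exact congrArg Subtype.val (LinearMap.congr_fun e1 ⟨u, hu⟩)
  intro x hx y hy
  by_contra hne
  have hu : J ⁅x, y⁆ ∈ h := hJ _ (hhb x hx y hy)
  have e1 := T.closed x y (J ⁅x, y⁆)
  rw [h3 y hy _ hu, ← lie_skew (J ⁅x, y⁆) x, h3 x hx _ hu, neg_zero, map_zero,
    LinearMap.zero_apply, LinearMap.zero_apply, add_zero, add_zero] at e1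
  have e2 := T.tame _ hne
  rw [e1] at e2
  exact lt_irrefl _ e2

end Step

theorem derived_abelian_aux (n : ℕ) : ∀ (L : Type u) [LieRing L] [LieAlgebra ℝ L]
    [FiniteDimensional ℝ L] [LieAlgebra.IsSolvable L] (J : L →ₗ[ℝ] L)
    (Ω : L →ₗ[ℝ] L →ₗ[ℝ] ℝ), Tame J Ω →
    (∀ x : L, LinearMap.trace ℝ L (LieAlgebra.ad ℝ L x) = 0) → finrank ℝ L ≤ n →
    ∀ x y z w : L, ⁅⁅x, y⁆, ⁅z, w⁆⁆ = 0 := by
  induction n with
  | zero =>
    intro L _ _ _ _ J Ω T huni hn x y z w
    have h0 : finrank ℝ L = 0 := by omega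
    have := Module.finrank_zero_iff.mp h0
    exact Subsingleton.elim _ _
  | succ n ih =>
    intro L _ _ _ _ J Ω T huni hn x y z w
    rcases subsingleton_or_nontrivial L with hs | hnt
    · exact Subsingleton.elim _ _
    let I : LieIdeal ℝ L := ⁅(⊤ : LieIdeal ℝ L), (⊤ : LieIdeal ℝ L)⁆
    have hI : ∀ z, z ∈ I ↔ z ∈ Submodule.span ℝ {z : L | ∃ a b : L, ⁅a, b⁆ = z} :=
      fun z => mem_derived z
    have hbr : ∀ a b : L, ⁅a, b⁆ ∈ I := fun a b => (hI _).mpr (Submodule.subset_span ⟨a, b, rfl⟩)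
    have hJI : ∀ u ∈ I, J u ∈ I := by
      intro u hu
      rw [hI] at hu ⊢
      induction hu using Submodule.span_induction with
      | mem z hz =>
        obtain ⟨a, b, rfl⟩ := hz
        exact T.derived_J huni a b
      | zero => rw [map_zero]; exact Submodule.zero_mem _
      | add z w _ _ h1 h2 => rw [map_add]; exact Submodule.add_mem _ h1 h2
      | smul t z _ h1 => rw [map_smul]; exact Submodule.smul_mem _ t h1
    let JI : I →ₗ[ℝ] I :=
      { toFun := fun u => ⟨J u, hJI u u.2⟩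
        map_add' := fun u v => Subtype.ext (map_add J (u : L) v)
        map_smul' := fun t u => Subtype.ext (map_smul J t (u : L)) }
    let ΩI : I →ₗ[ℝ] I →ₗ[ℝ] ℝ :=
      LinearMap.mk₂ ℝ (fun u v => Ω (u : L) (v : L))
        (fun a b c => by
          show Ω ((a : L) + b) (c : L) = _
          rw [map_add, LinearMap.add_apply])
        (fun t a b => by
          show Ω (t • (a : L)) (b : L) = _
          rw [map_smul, LinearMap.smul_apply])
        (fun a b c => by
          show Ω (a : L) ((b : L) + c) = _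
          rw [map_add])
        (fun t a b => by
          show Ω (a : L) (t • (b : L)) = _
          rw [map_smul])
    have TI : Tame JI ΩI :=
      { jj := fun u => Subtype.ext (T.jj u)
        int := fun u v => Subtype.ext (T.int u v)
        alt := fun u => T.alt u
        closed := fun u v w => T.closed u v w
        tame := fun u hu => T.tame u (fun h0 => hu (Subtype.ext h0)) }
    have huniI : ∀ u : I, LinearMap.trace ℝ I (LieAlgebra.ad ℝ I u) = 0 := by
      intro u
      have h1 := LinearMap.trace_restrict_eq_of_forall_mem (R := ℝ) (M := L) I.toSubmodule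
        (LieAlgebra.ad ℝ L (u : L)) (fun y => hbr (u : L) y)
      rw [huni] at h1
      exact h1
    have hlt : finrank ℝ I < finrank ℝ L := by
      have h1 := derived_lt L
      have h2 : I.toSubmodule < ⊤ := by
        rw [lt_top_iff_ne_top]
        intro h3
        apply h1.ne
        apply LieSubmodule.toSubmodule_injective
        exact h3
      exact Submodule.finrank_lt h2.ne
    have h1 := ih I JI ΩI TI huniI (by omega)
    have h2 := TI.derived_J huniI
    have h3 := step T I.toSubmodule (Submodule.ext (fun z => hI z)) hJI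
      (fun a ha b hb c hc d hd => congrArg Subtype.val (h1 ⟨a, ha⟩ ⟨b, hb⟩ ⟨c, hc⟩ ⟨d, hd⟩))
      (fun a ha b hb => by
        have h4 := h2 ⟨a, ha⟩ ⟨b, hb⟩
        have h5 := Submodule.mem_map_of_mem (f := I.toSubmodule.subtype) h4
        rw [Submodule.map_span] at h5
        refine Submodule.span_mono ?_ h5
        rintro _ ⟨_, ⟨c, d, rfl⟩, rfl⟩
        exact ⟨c, c.2, d, d.2, rfl⟩)
    exact h3 _ (hbr x y) _ (hbr z w)

/-- The derived algebra of a solvable unimodular Hermitian-symplectic Lie algebra is abelian. -/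
theorem derived_abelian {L : Type u} [LieRing L] [LieAlgebra ℝ L]
    [FiniteDimensional ℝ L] [LieAlgebra.IsSolvable L] {J : L →ₗ[ℝ] L}
    {Ω : L →ₗ[ℝ] L →ₗ[ℝ] ℝ} (T : Tame J Ω)
    (huni : ∀ x : L, LinearMap.trace ℝ L (LieAlgebra.ad ℝ L x) = 0) (x y z w : L) :
    ⁅⁅x, y⁆, ⁅z, w⁆⁆ = 0 :=
  derived_abelian_aux (finrank ℝ L) L J Ω T huni le_rfl x y z w

end Pool.Agent.STK
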