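import Mathlib

set_option autoImplicit false

/-!
# A trace criterion for nilpotency

If `trace ((1 - t N)⁻¹ N) = 0` whenever `1 - t N` is invertible, then `N` is nilpotent.
-/

open Polynomial Module

namespace Pool.Agent.STK

lemma charpolyRev_eq_one {n : Type*} [Fintype n] [DecidableEq n] (M : Matrix n n ℝ)
    (h : ∀ (t : ℝ) (A : Matrix n n ℝ), A * (1 - t • M) = 1 → Matrix.trace (A * M) = 0) :
    M.charpolyRev = 1 := by
  have hcomp : ∀ (t : ℝ) (A : Matrix n n ℝ), A * (1 - t • M) = 1 →
      (M.charpolyRev).comp (X + C t) = C (Matrix.det (1 - t • M)) * (A * M).charpolyRev := by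
    intro t A hA
    have hB : (1 - t • M) * A = 1 := mul_eq_one_comm.mp hA
    have h1 : (1 - (X : ℝ[X]) • M.map C).map (fun p : ℝ[X] => p.comp (X + C t)) =
        (1 - t • M).map C * (1 - (X : ℝ[X]) • (A * M).map C) := by
      have h2 : (1 - t • M).map C * (A * M).map C = M.map C := by
        rw [← Matrix.map_mul, ← Matrix.mul_assoc, hB, Matrix.one_mul]
      rw [Matrix.mul_sub, Matrix.mul_smul, h2, Matrix.mul_one]
      ext1 i j
      simp only [Matrix.map_apply, Matrix.sub_apply, Matrix.smul_apply, smul_eq_mul,
        Matrix.one_apply]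
      by_cases hij : i = j
      · simp [hij]
        ring
      · simp [hij]
        ring
    have h3 : (M.charpolyRev).comp (X + C t) =
        Matrix.det ((1 - (X : ℝ[X]) • M.map C).map (fun p : ℝ[X] => p.comp (X + C t))) := by
      have := RingHom.map_det (Polynomial.compRingHom (X + C t)) (1 - (X : ℝ[X]) • M.map C)
      exact this
    rw [h3, h1, Matrix.det_mul]
    congr 1
    exact (RingHom.map_det C (1 - t • M)).symm
  have hder : ∀ t : ℝ, (M.charpolyRev).eval t ≠ 0 → (derivative M.charpolyRev).eval t = 0 := by
    intro t ht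
    have hdet : (M.charpolyRev).eval t = Matrix.det (1 - t • M) := by
      unfold Matrix.charpolyRev
      have := RingHom.map_det (Polynomial.evalRingHom t) (1 - (X : ℝ[X]) • M.map C)
      rw [Polynomial.coe_evalRingHom] at this
      rw [this]
      congr 1
      ext1 i j
      by_cases hij : i = j
      · simp [hij]
        ring
      · simp [hij]
        ring
    rw [hdet] at ht
    obtain ⟨A, hA⟩ : ∃ A : Matrix n n ℝ, A * (1 - t • M) = 1 :=
      ⟨(1 - t • M)⁻¹, Matrix.nonsing_inv_mul _ (isUnit_iff_ne_zero.mpr ht)⟩
    have h1 := congrArg (fun p => (derivative p).eval 0) (hcomp t A hA)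
    simp only [derivative_comp, derivative_add, derivative_X, derivative_C, add_zero, one_mul,
      eval_mul, eval_comp, eval_add, eval_X, eval_C, zero_add, derivative_mul,
      zero_mul] at h1
    rw [h1, ← coeff_zero_eq_eval_zero, coeff_derivative]
    simp only [zero_add, Matrix.coeff_charpolyRev_eq_neg_trace, h t A hA]
    simp
  have h0 : (M.charpolyRev).eval 0 = 1 := Matrix.eval_charpolyRev
  have hne : M.charpolyRev ≠ 0 := by
    intro hz
    rw [hz] at h0
    simp at h0
  have hprod : derivative M.charpolyRev * M.charpolyRev = 0 := by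
    apply Polynomial.funext
    intro t
    rw [eval_mul, eval_zero]
    by_cases ht : (M.charpolyRev).eval t = 0
    · rw [ht, mul_zero]
    · rw [hder t ht, zero_mul]
  have hd0 : derivative M.charpolyRev = 0 := by
    rcases mul_eq_zero.mp hprod with h1 | h1
    · exact h1
    · exact absurd h1 hne
  have hconst := Polynomial.derivative_eq_zero.mp hd0
  rw [eq_C_of_natDegree_eq_zero hconst, coeff_zero_eq_eval_zero, h0, C_1]

lemma isNilpotent_of_trace {V : Type*} [AddCommGroup V] [Module ℝ V] [FiniteDimensional ℝ V]
    (N : End ℝ V)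
    (h : ∀ (t : ℝ) (A : End ℝ V), A * (1 - t • N) = 1 → LinearMap.trace ℝ V (A * N) = 0) :
    IsNilpotent N := by
  let b := Module.finBasis ℝ V
  have h1 : (LinearMap.toMatrix b b N).charpolyRev = 1 := by
    apply charpolyRev_eq_one
    intro t A hA
    have h2 : (Matrix.toLin b b A) * (1 - t • N) = 1 := by
      apply (LinearMap.toMatrix b b).injective
      rw [LinearMap.toMatrix_mul, LinearMap.toMatrix_toLin, map_sub, map_smul,
        LinearMap.toMatrix_one, hA]
    have h3 := h t _ h2
    rw [LinearMap.trace_eq_matrix_trace ℝ b, LinearMap.toMatrix_mul,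
      LinearMap.toMatrix_toLin] at h3
    exact h3
  have h2 : N.charpoly.reverse = 1 := by
    rw [← LinearMap.charpoly_toMatrix N b, Matrix.reverse_charpoly, h1]
  have h3 : natTrailingDegree N.charpoly = finrank ℝ V := by
    have h4 := natDegree_eq_reverse_natDegree_add_natTrailingDegree N.charpoly
    rw [h2, natDegree_one, zero_add, LinearMap.charpoly_natDegree] at h4
    exact h4.symm
  exact ((LinearMap.charpoly_nilpotent_tfae N).out 3 0).mp h3

end Pool.Agent.STK
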