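import Pool.Agent.STK.Aff

set_option autoImplicit false

/-!
# Simply transitive affine actions have solvable Lie algebras
-/

open Module

namespace Pool.Agent.STK

universe u v

section

variable {L : Type*} [LieRing L] [LieAlgebra ℝ L]

/-- The quotient map as a morphism of Lie algebras. -/
def quo (M : LieIdeal ℝ L) : L →ₗ⁅ℝ⁆ L ⧸ M :=
  { (LieSubmodule.Quotient.mk' M : L →ₗ[ℝ] L ⧸ M) with
    map_lie' := fun {_ _} => rfl }

lemma quo_surj (M : LieIdeal ℝ L) : Function.Surjective (quo M) :=
  LieSubmodule.Quotient.surjective_mk' M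

lemma quo_eq_zero (M : LieIdeal ℝ L) (x : L) : quo M x = 0 ↔ x ∈ M :=
  LieSubmodule.Quotient.mk_eq_zero M

lemma solvable_sub [Subsingleton L] : LieAlgebra.IsSolvable L := by
  apply LieAlgebra.IsSolvable.mk (R := ℝ) (k := 0)
  rw [eq_bot_iff]
  intro x _
  rw [LieSubmodule.mem_bot]
  exact Subsingleton.elim _ _

lemma solvable_of (M N : LieIdeal ℝ L) (hMN : (⁅M, M⁆ : LieIdeal ℝ L) ≤ N)
    (hN : LieAlgebra.IsSolvable N) (hQ : LieAlgebra.IsSolvable (L ⧸ M)) :
    LieAlgebra.IsSolvable L := by
  obtain ⟨j, hj⟩ := LieAlgebra.IsSolvable.solvable ℝ (L ⧸ M)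
  obtain ⟨k, hk⟩ := LieAlgebra.IsSolvable.solvable ℝ N
  rw [LieIdeal.derivedSeries_eq_bot_iff] at hk
  have h1 : LieAlgebra.derivedSeries ℝ L j ≤ M := by
    have h2 := LieIdeal.derivedSeries_map_eq j (quo_surj M)
    rw [hj, LieIdeal.map_eq_bot_iff] at h2
    intro x hx
    have h3 := h2 hx
    rw [LieHom.mem_ker] at h3
    exact (quo_eq_zero M x).mp h3
  apply LieAlgebra.IsSolvable.mk (R := ℝ) (k := k + (1 + j))
  rw [LieAlgebra.derivedSeries_def, LieAlgebra.derivedSeriesOfIdeal_add,
    LieAlgebra.derivedSeriesOfIdeal_add, eq_bot_iff, ← hk]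
  apply LieAlgebra.derivedSeriesOfIdeal_mono
  refine le_trans ?_ hMN
  have h2 : LieAlgebra.derivedSeriesOfIdeal ℝ L 1 M = ⁅M, M⁆ := by
    rw [LieAlgebra.derivedSeriesOfIdeal_succ, LieAlgebra.derivedSeriesOfIdeal_zero]
  rw [← h2]
  exact LieAlgebra.derivedSeriesOfIdeal_mono h1 1

variable [FiniteDimensional ℝ L] {W : Type*}
  [AddCommGroup W] [Module ℝ W] [FiniteDimensional ℝ W] [LieRingModule L W] [LieModule ℝ L W]

lemma solvable_step [Nontrivial W] (hirr : ∀ N : LieSubmodule ℝ L W, N ≠ ⊥ → N = ⊤)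
    (f : L →ₗ[ℝ] W) (hf : ∀ x y, f ⁅x, y⁆ = ⁅x, f y⁆ - ⁅y, f x⁆)
    (hsurj : ∀ w : W, Function.Surjective (fun x : L => f x + ⁅x, w⁆))
    (B : LieSubalgebra ℝ L) (hB : ∀ x, x ∈ B ↔ f x = 0) (hBs : LieAlgebra.IsSolvable B) :
    LieAlgebra.IsSolvable L := by
  let M : LieIdeal ℝ L :=
    { carrier := {m | ∀ w : W, ⁅m, w⁆ = 0}
      add_mem' := by
        intro a b ha hb w
        rw [add_lie, ha w, hb w, add_zero]
      zero_mem' := fun w => zero_lie w
      smul_mem' := by
        intro t a ha w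
        rw [smul_lie, ha w, smul_zero]
      lie_mem := by
        intro x m hm w
        rw [lie_lie, hm w, hm ⁅x, w⁆, lie_zero, sub_zero] }
  have hMm : ∀ m, m ∈ M ↔ ∀ w : W, ⁅m, w⁆ = 0 := fun m => Iff.rfl
  let N : LieIdeal ℝ L :=
    { carrier := {m | m ∈ M ∧ f m = 0}
      add_mem' := by
        rintro a b ⟨ha, ha'⟩ ⟨hb, hb'⟩
        exact ⟨add_mem ha hb, by rw [map_add, ha', hb', add_zero]⟩
      zero_mem' := ⟨zero_mem _, map_zero f⟩
      smul_mem' := by
        rintro t a ⟨ha, ha'⟩
        exact ⟨M.toSubmodule.smul_mem t ha, by rw [map_smul, ha', smul_zero]⟩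
      lie_mem := by
        rintro x m ⟨hm, hm'⟩
        exact ⟨M.lie_mem hm, by rw [hf, hm', lie_zero, hm (f x), sub_zero]⟩ }
  have hNm : ∀ m, m ∈ N ↔ m ∈ M ∧ f m = 0 := fun m => Iff.rfl
  have hMN : (⁅M, M⁆ : LieIdeal ℝ L) ≤ N := by
    rw [LieSubmodule.lieIdeal_oper_eq_span, LieSubmodule.lieSpan_le]
    rintro _ ⟨⟨x, hx⟩, ⟨y, hy⟩, rfl⟩
    exact ⟨M.lie_mem hy, by
      show f ⁅x, y⁆ = 0
      rw [hf, hx (f y), hy (f x), sub_zero]⟩
  have hN : LieAlgebra.IsSolvable N := by
    let ι : N →ₗ⁅ℝ⁆ B :=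
      { toFun := fun x => ⟨x, (hB _).mpr x.2.2⟩
        map_add' := fun x y => rfl
        map_smul' := fun t x => rfl
        map_lie' := fun {x y} => rfl }
    have hι : Function.Injective ι := by
      intro x y hxy
      apply Subtype.ext
      exact congrArg (fun z : B => (z : L)) hxy
    exact hι.lieAlgebra_isSolvable
  let Z : LieSubmodule ℝ L W :=
    { carrier := {w | ∃ m ∈ M, f m = w}
      add_mem' := by
        rintro _ _ ⟨a, ha, rfl⟩ ⟨b, hb, rfl⟩
        exact ⟨a + b, add_mem ha hb, map_add f a b⟩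
      zero_mem' := ⟨0, zero_mem _, map_zero f⟩
      smul_mem' := by
        rintro t _ ⟨a, ha, rfl⟩
        exact ⟨t • a, M.toSubmodule.smul_mem t ha, map_smul f t a⟩
      lie_mem := by
        rintro x _ ⟨m, hm, rfl⟩
        exact ⟨⁅x, m⁆, M.lie_mem hm, by rw [hf, hm (f x), sub_zero]⟩ }
  by_cases hZ : Z = ⊥
  · exfalso
    obtain ⟨w, hw⟩ := fixed_point hirr f hf (by
      intro m hm
      have h1 : f m ∈ Z := ⟨m, hm, rfl⟩
      rwa [hZ, LieSubmodule.mem_bot] at h1)
    obtain ⟨w1, hw1⟩ := exists_ne (0 : W)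
    obtain ⟨x, hx⟩ := hsurj (-w) w1
    apply hw1
    have hx' : f x + ⁅x, -w⁆ = w1 := hx
    rw [← hx', hw x, lie_neg, add_neg_cancel]
  · have hT := hirr Z hZ
    apply solvable_of M N hMN hN
    let q : B →ₗ⁅ℝ⁆ L ⧸ M := (quo M).comp B.incl
    have hq : Function.Surjective q := by
      intro y
      obtain ⟨x, rfl⟩ := quo_surj M y
      have h1 : f x ∈ Z := by
        rw [hT]
        exact LieSubmodule.mem_top _
      obtain ⟨m, hm, hmx⟩ := h1
      refine ⟨⟨x - m, (hB _).mpr (by rw [map_sub, hmx, sub_self])⟩, ?_⟩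
      show quo M (x - m) = quo M x
      rw [map_sub, (quo_eq_zero M m).mpr hm, sub_zero]
    exact hq.lieAlgebra_isSolvable

end

theorem solvable_affine_aux (n : ℕ) : ∀ (L : Type u) (V : Type v) [LieRing L] [LieAlgebra ℝ L]
    [FiniteDimensional ℝ L] [AddCommGroup V] [Module ℝ V] [FiniteDimensional ℝ V]
    [LieRingModule L V] [LieModule ℝ L V] (f : L →ₗ[ℝ] V),
    (∀ x y, f ⁅x, y⁆ = ⁅x, f y⁆ - ⁅y, f x⁆) →
    (∀ v : V, Function.Bijective (fun x : L => f x + ⁅x, v⁆)) → finrank ℝ V ≤ n →
    LieAlgebra.IsSolvable L := by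
  induction n with
  | zero =>
    intro L V _ _ _ _ _ _ _ _ f hf hbij hn
    have h0 : finrank ℝ V = 0 := by omega
    have h1 := Module.finrank_zero_iff.mp h0
    have h2 : Subsingleton L := (hbij 0).1.subsingleton
    exact solvable_sub
  | succ n ih =>
    intro L V _ _ _ _ _ _ _ _ f hf hbij hn
    rcases subsingleton_or_nontrivial V with hs | hnt
    · have h2 : Subsingleton L := (hbij 0).1.subsingleton
      exact solvable_sub
    obtain ⟨V1, hV1⟩ : ∃ V1 : LieSubmodule ℝ L V, IsCoatom V1 := by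
      rcases IsCoatomic.eq_top_or_exists_le_coatom (⊥ : LieSubmodule ℝ L V) with h | ⟨a, ha, _⟩
      · exfalso
        exact bot_ne_top h
      · exact ⟨a, ha⟩
    let π : V →ₗ⁅ℝ, L⁆ V ⧸ V1 := LieSubmodule.Quotient.mk' V1
    have hπ : ∀ v, π v = 0 ↔ v ∈ V1 := fun v => LieSubmodule.Quotient.mk_eq_zero V1
    have hπs : Function.Surjective π := LieSubmodule.Quotient.surjective_mk' V1
    have hnt' : Nontrivial (V ⧸ V1) := by
      by_contra h
      rw [not_nontrivial_iff_subsingleton] at h
      apply hV1.1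
      rw [eq_top_iff]
      intro v _
      rw [← hπ]
      exact Subsingleton.elim _ _
    have hirr : ∀ N : LieSubmodule ℝ L (V ⧸ V1), N ≠ ⊥ → N = ⊤ := by
      intro N hN
      let N' : LieSubmodule ℝ L V :=
        { carrier := {v | π v ∈ N}
          add_mem' := by
            intro a b ha hb
            show π (a + b) ∈ N
            rw [map_add]
            exact add_mem ha hb
          zero_mem' := by
            show π 0 ∈ N
            rw [map_zero]
            exact zero_mem _
          smul_mem' := by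
            intro t a ha
            show π (t • a) ∈ N
            rw [map_smul]
            exact N.toSubmodule.smul_mem t ha
          lie_mem := by
            intro x m hm
            show π ⁅x, m⁆ ∈ N
            rw [LieModuleHom.map_lie]
            exact N.lie_mem hm }
      have hle : V1 ≤ N' := by
        intro v hv
        show π v ∈ N
        rw [(hπ v).mpr hv]
        exact zero_mem _
      rcases hV1.le_iff.mp hle with h | h
      · rw [eq_top_iff]
        intro w _
        obtain ⟨v, rfl⟩ := hπs w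
        have h1 : v ∈ N' := by
          rw [h]
          exact LieSubmodule.mem_top _
        exact h1
      · exfalso
        apply hN
        rw [eq_bot_iff]
        intro w hw
        obtain ⟨v, rfl⟩ := hπs w
        have h1 : v ∈ N' := hw
        rw [h] at h1
        rw [LieSubmodule.mem_bot]
        exact (hπ v).mpr h1
    let fW : L →ₗ[ℝ] V ⧸ V1 := (π : V →ₗ[ℝ] V ⧸ V1) ∘ₗ f
    have hfW : ∀ x, fW x = π (f x) := fun x => rfl
    let B : LieSubalgebra ℝ L :=
      { carrier := {x | f x ∈ V1}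
        add_mem' := by
          intro a b ha hb
          show f (a + b) ∈ V1
          rw [map_add]
          exact add_mem ha hb
        zero_mem' := by
          show f 0 ∈ V1
          rw [map_zero]
          exact zero_mem _
        smul_mem' := by
          intro t a ha
          show f (t • a) ∈ V1
          rw [map_smul]
          exact V1.toSubmodule.smul_mem t ha
        lie_mem' := by
          intro a b ha hb
          show f ⁅a, b⁆ ∈ V1
          rw [hf]
          exact sub_mem (V1.lie_mem hb) (V1.lie_mem ha) }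
    have hBm : ∀ x, x ∈ B ↔ f x ∈ V1 := fun x => Iff.rfl
    let fB : B →ₗ[ℝ] V1 :=
      { toFun := fun x => ⟨f x, x.2⟩
        map_add' := fun x y => Subtype.ext (map_add f (x : L) y)
        map_smul' := fun t x => Subtype.ext (map_smul f t (x : L)) }
    have hlt : finrank ℝ V1 < finrank ℝ V := by
      have h2 : V1.toSubmodule ≠ ⊤ := by
        intro h3
        apply hV1.1
        apply LieSubmodule.toSubmodule_injective
        exact h3
      exact Submodule.finrank_lt h2
    have hBs : LieAlgebra.IsSolvable B := by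
      apply ih B V1 fB
      · intro x y
        apply Subtype.ext
        exact hf x y
      · intro v
        constructor
        · intro x y hxy
          apply Subtype.ext
          apply (hbij (v : V)).1
          exact congrArg Subtype.val hxy
        · intro w
          obtain ⟨x, hx⟩ := (hbij (v : V)).2 (w : V)
          have hx' : f x + ⁅x, (v : V)⁆ = w := hx
          have hxB : x ∈ B := by
            rw [hBm]
            have h1 : f x = w - ⁅x, (v : V)⁆ := eq_sub_of_add_eq hx'
            rw [h1]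
            exact sub_mem w.2 (V1.lie_mem v.2)
          exact ⟨⟨x, hxB⟩, Subtype.ext hx'⟩
      · omega
    apply solvable_step hirr fW ?_ ?_ B ?_ hBs
    · intro x y
      rw [hfW, hfW, hfW, hf, map_sub, LieModuleHom.map_lie, LieModuleHom.map_lie]
    · intro w w1
      obtain ⟨v, rfl⟩ := hπs w
      obtain ⟨v1, rfl⟩ := hπs w1
      obtain ⟨x, hx⟩ := (hbij v).2 v1
      refine ⟨x, ?_⟩
      have hx' : f x + ⁅x, v⁆ = v1 := hx
      show fW x + ⁅x, π v⁆ = π v1
      rw [← hx', map_add, LieModuleHom.map_lie]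
      rfl
    · intro x
      rw [hBm, hfW, hπ]

/-- A Lie algebra with a simply transitive affine action (in the infinitesimal sense at every
point) is solvable. -/
theorem solvable_affine {L : Type u} {V : Type v} [LieRing L] [LieAlgebra ℝ L]
    [FiniteDimensional ℝ L] [AddCommGroup V] [Module ℝ V] [FiniteDimensional ℝ V]
    [LieRingModule L V] [LieModule ℝ L V] (f : L →ₗ[ℝ] V)
    (hf : ∀ x y, f ⁅x, y⁆ = ⁅x, f y⁆ - ⁅y, f x⁆)
    (hbij : ∀ v : V, Function.Bijective (fun x : L => f x + ⁅x, v⁆)) :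
    LieAlgebra.IsSolvable L :=
  solvable_affine_aux (finrank ℝ V) L V f hf hbij le_rfl

end Pool.Agent.STK
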